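import Pool.Agent.Work.MP_c20ce7_dm77.Inv
import Pool.Agent.Work.MP_c20ce7_dm82.ChartDefs

set_option autoImplicit false
set_option linter.unusedSectionVars false
set_option linter.unusedSimpArgs false

/-!
# BASE-C: the chart of `V(2,4,4,4,2)` (definitions of `MP_c20ce7_dm82.ChartDefs`) is a coordinate
system, with a polynomial inverse up to the denominator `det a (det q)^5 (det u)^2 det l`
-/

open MvPolynomial

noncomputable section

namespace Pool.DM

/-- Matrices of size two. -/
abbrev M2 (R : Type) : Type := Matrix (Fin 2) (Fin 2) R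

section Abs

variable {R : Type} [CommRing R]

theorem adj_smul2 (c : R) (M : M2 R) : (c • M).adjugate = c • M.adjugate := by
  rw [Matrix.adjugate_smul]
  simp

theorem det_smul2 (c : R) (M : M2 R) : (c • M).det = c ^ 2 * M.det := by
  rw [Matrix.det_smul, Fintype.card_fin]

theorem adj_adj2 (M : M2 R) : M.adjugate.adjugate = M := by
  ext i j
  fin_cases i <;> fin_cases j <;> simp [Matrix.adjugate_fin_two]

theorem cc1 (N X : M2 R) : N * (N.adjugate * X) = N.det • X := by
  rw [← mul_assoc, Matrix.mul_adjugate, smul_mul_assoc, one_mul]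

theorem cc2 (N X : M2 R) : N.adjugate * (N * X) = N.det • X := by
  rw [← mul_assoc, Matrix.adjugate_mul, smul_mul_assoc, one_mul]

variable (a B q S u V W l p r ze ka Z X : M2 R) (c : R)

theorem A_B : B * a * a.adjugate = a.det • B := by
  simp only [mul_assoc, Matrix.mul_adjugate, mul_smul_comm, mul_one]

theorem A_ku : q.det • (u - u * V * S) + u * V * (S * q) * q.adjugate = q.det • u := by
  simp only [mul_assoc, cc1, cc2, Matrix.mul_adjugate, Matrix.adjugate_mul, mul_smul_comm,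
    smul_mul_assoc, mul_one, one_mul, smul_sub]
  module

theorem A_kw : q.det • (W * (u - u * V * S) - Z * S) +
    (W * (u * V) + Z) * (S * q) * q.adjugate = q.det • (W * u) := by
  simp only [mul_assoc, cc1, cc2, Matrix.mul_adjugate, Matrix.adjugate_mul, mul_smul_comm,
    smul_mul_assoc, mul_one, one_mul, smul_sub, smul_add, mul_add, add_mul, mul_sub, sub_mul]
  module

theorem A_kr : q.det • (S * X + r) - S * q * q.adjugate * X = q.det • r := by
  simp only [mul_assoc, cc1, cc2, Matrix.mul_adjugate, Matrix.adjugate_mul, mul_smul_comm,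
    smul_mul_assoc, mul_one, one_mul, smul_sub, smul_add, mul_add, add_mul, mul_sub, sub_mul]
  module

theorem A_V : (c • u).adjugate * (u * V) = (c * u.det) • V := by
  rw [adj_smul2]
  simp only [mul_assoc, cc1, cc2, Matrix.mul_adjugate, Matrix.adjugate_mul, mul_smul_comm,
    smul_mul_assoc, mul_one, one_mul, smul_smul]

theorem A_W : c • (W * u) * (c • u).adjugate = (c ^ 2 * u.det) • W := by
  rw [adj_smul2]
  simp only [mul_assoc, cc1, cc2, Matrix.mul_adjugate, Matrix.adjugate_mul, mul_smul_comm,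
    smul_mul_assoc, mul_one, one_mul, smul_smul]
  congr 1
  ring

theorem A_ze : l * ((c ^ 2 * u.det) • (W * (u * V) + l.adjugate * ze) -
    c • (W * u) * (c • u).adjugate * (u * V)) = (c ^ 2 * u.det * l.det) • ze := by
  rw [A_W]
  simp only [mul_assoc, cc1, cc2, Matrix.mul_adjugate, Matrix.adjugate_mul, mul_smul_comm,
    smul_mul_assoc, mul_one, one_mul, smul_sub, smul_add, mul_add, add_mul, mul_sub, sub_mul,
    smul_smul]
  module

theorem A_ka : ((c ^ 2 * u.det) • (ka * u.adjugate - l * W) +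
    l * (c • (W * u) * (c • u).adjugate)) * (c • u) = (c ^ 3 * u.det ^ 2) • ka := by
  rw [A_W]
  simp only [mul_assoc, cc1, cc2, Matrix.mul_adjugate, Matrix.adjugate_mul, mul_smul_comm,
    smul_mul_assoc, mul_one, one_mul, smul_sub, smul_add, mul_add, add_mul, mul_sub, sub_mul,
    smul_smul]
  module

theorem A_p : (a.det * (c ^ 2 * u.det)) • (p - q * B - V * r) +
    a.det • ((c • u).adjugate * (u * V) * (c • r)) +
    (c ^ 2 * u.det) • (q * (B * a) * a.adjugate) = (a.det * c ^ 2 * u.det) • p := by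
  rw [A_V]
  simp only [mul_assoc, cc1, cc2, Matrix.mul_adjugate, Matrix.adjugate_mul, mul_smul_comm,
    smul_mul_assoc, mul_one, one_mul, smul_sub, smul_add, mul_add, add_mul, mul_sub, sub_mul,
    smul_smul]
  module

end Abs

/-! ### The substitution on matrices -/

/-- Functions on `V`. -/
abbrev PV : Type := MvPolynomial (Co e0) ℂ

/-- The generic blocks of a point of `V`. -/
def zb (i j : Fin 8) (h : dg0 i = dg0 j + 1) : M2 PV :=
  Matrix.of fun a b => X ⟨((i, a), (j, b)), h⟩

/-- The substitution. -/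
def phK (M : M2 PV) : M2 Ach := Matrix.of fun a b => bind₁ Ych (M a b)

theorem phK_apply (M : M2 PV) (a b : Fin 2) : phK M a b = bind₁ Ych (M a b) := rfl

theorem phK_eq (M : M2 PV) : phK M = ((bind₁ Ych : PV →ₐ[ℂ] Ach) : PV →+* Ach).mapMatrix M := rfl

theorem phK_zb (i j : Fin 8) (h : dg0 i = dg0 j + 1) : phK (zb i j h) = YB i j := by
  ext a b
  simp [phK, zb, Ych, bind₁_X_right]

theorem phK_mul (M N : M2 PV) : phK (M * N) = phK M * phK N := by
  rw [phK_eq, map_mul]; rfl

theorem phK_add (M N : M2 PV) : phK (M + N) = phK M + phK N := by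
  rw [phK_eq, map_add]; rfl

theorem phK_sub (M N : M2 PV) : phK (M - N) = phK M - phK N := by
  rw [phK_eq, map_sub]; rfl

theorem phK_adj (M : M2 PV) : phK M.adjugate = (phK M).adjugate :=
  RingHom.map_adjugate _ M

theorem phK_det (M : M2 PV) : bind₁ Ych M.det = (phK M).det :=
  RingHom.map_det (((bind₁ Ych : PV →ₐ[ℂ] Ach) : PV →+* Ach)) M

theorem phK_smul (c : PV) (M : M2 PV) : phK (c • M) = bind₁ Ych c • phK M := by
  ext a b
  simp [phK_apply]

theorem YB10 : YB 1 0 = mm .a := rfl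
theorem YB20 : YB 2 0 = mm .B * mm .a := rfl
theorem YB31 : YB 3 1 = mm .p - mm .q * mm .B - mm .V * mm .r := rfl
theorem YB32 : YB 3 2 = mm .q := rfl
theorem YB41 : YB 4 1 = mm .S * (mm .p - mm .q * mm .B - mm .V * mm .r) + mm .r := rfl
theorem YB42 : YB 4 2 = mm .S * mm .q := rfl
theorem YB53 : YB 5 3 = mm .u - mm .u * mm .V * mm .S := rfl
theorem YB54 : YB 5 4 = mm .u * mm .V := rfl
theorem YB63 : YB 6 3 =
    mm .W * (mm .u - mm .u * mm .V * mm .S) - (mm .l).adjugate * mm .ze * mm .S := rfl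
theorem YB64 : YB 6 4 = mm .W * (mm .u * mm .V) + (mm .l).adjugate * mm .ze := rfl
theorem YB75 : YB 7 5 = mm .ka * (mm .u).adjugate - mm .l * mm .W := rfl
theorem YB76 : YB 7 6 = mm .l := rfl

theorem d10 : dg0 1 = dg0 0 + 1 := rfl
theorem d20 : dg0 2 = dg0 0 + 1 := rfl
theorem d31 : dg0 3 = dg0 1 + 1 := rfl
theorem d32 : dg0 3 = dg0 2 + 1 := rfl
theorem d41 : dg0 4 = dg0 1 + 1 := rfl
theorem d42 : dg0 4 = dg0 2 + 1 := rfl
theorem d53 : dg0 5 = dg0 3 + 1 := rfl
theorem d54 : dg0 5 = dg0 4 + 1 := rfl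
theorem d63 : dg0 6 = dg0 3 + 1 := rfl
theorem d64 : dg0 6 = dg0 4 + 1 := rfl
theorem d75 : dg0 7 = dg0 5 + 1 := rfl
theorem d76 : dg0 7 = dg0 6 + 1 := rfl

/-- `det(q) u`. -/
def ku : M2 PV := (zb 3 2 d32).det • zb 5 3 d53 + zb 5 4 d54 * zb 4 2 d42 * (zb 3 2 d32).adjugate

/-- `det(q) W u`. -/
def kw : M2 PV := (zb 3 2 d32).det • zb 6 3 d63 + zb 6 4 d64 * zb 4 2 d42 * (zb 3 2 d32).adjugate

/-- `det(q) r`. -/
def kr : M2 PV := (zb 3 2 d32).det • zb 4 1 d41 - zb 4 2 d42 * (zb 3 2 d32).adjugate * zb 3 1 d31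

theorem phK_ku : phK ku = (mm .q).det • mm .u := by
  rw [ku, phK_add, phK_smul, phK_det, phK_mul, phK_mul, phK_adj, phK_zb, phK_zb, phK_zb, phK_zb,
    YB32, YB53, YB54, YB42]
  exact A_ku _ _ _ _

theorem phK_kw : phK kw = (mm .q).det • (mm .W * mm .u) := by
  rw [kw, phK_add, phK_smul, phK_det, phK_mul, phK_mul, phK_adj, phK_zb, phK_zb, phK_zb, phK_zb,
    YB32, YB63, YB64, YB42]
  exact A_kw _ _ _ _ _ _

theorem phK_kr : phK kr = (mm .q).det • mm .r := by
  rw [kr, phK_sub, phK_smul, phK_det, phK_mul, phK_mul, phK_adj, phK_zb, phK_zb, phK_zb, phK_zb,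
    YB32, YB41, YB42, YB31]
  exact A_kr _ _ _ _

/-- The denominator in the coordinates of the chart. -/
def FK : Ach := (mm .a).det * (mm .q).det ^ 5 * (mm .u).det ^ 2 * (mm .l).det

/-- The denominator. -/
def qK : PV := (zb 1 0 d10).det * (zb 3 2 d32).det * ku.det ^ 2 * (zb 7 6 d76).det

theorem b10 : bind₁ Ych (zb 1 0 d10).det = (mm .a).det := by rw [phK_det, phK_zb, YB10]
theorem b32 : bind₁ Ych (zb 3 2 d32).det = (mm .q).det := by rw [phK_det, phK_zb, YB32]
theorem b76 : bind₁ Ych (zb 7 6 d76).det = (mm .l).det := by rw [phK_det, phK_zb, YB76]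
theorem bku : bind₁ Ych ku.det = (mm .q).det ^ 2 * (mm .u).det := by
  rw [phK_det, phK_ku, det_smul2]

theorem bind_qK : bind₁ Ych qK = FK := by
  rw [qK, map_mul, map_mul, map_mul, map_pow, b10, b32, bku, b76, FK]
  ring

/-- `F` times the variables, as polynomials in the coordinates of the point. -/
def gM : Bk → M2 PV
  | .a => qK • zb 1 0 d10
  | .B => ((zb 3 2 d32).det * ku.det ^ 2 * (zb 7 6 d76).det) • (zb 2 0 d20 * (zb 1 0 d10).adjugate)
  | .q => qK • zb 3 2 d32
  | .S => ((zb 1 0 d10).det * ku.det ^ 2 * (zb 7 6 d76).det) • (zb 4 2 d42 * (zb 3 2 d32).adjugate)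
  | .u => ((zb 1 0 d10).det * ku.det ^ 2 * (zb 7 6 d76).det) • ku
  | .V => ((zb 1 0 d10).det * (zb 3 2 d32).det ^ 2 * ku.det * (zb 7 6 d76).det) •
      (ku.adjugate * zb 5 4 d54)
  | .W => ((zb 1 0 d10).det * (zb 3 2 d32).det * ku.det * (zb 7 6 d76).det) • (kw * ku.adjugate)
  | .l => qK • zb 7 6 d76
  | .p => ((zb 3 2 d32).det * ku.det * (zb 7 6 d76).det) •
      (((zb 1 0 d10).det * ku.det) • zb 3 1 d31 +
        (zb 1 0 d10).det • (ku.adjugate * zb 5 4 d54 * kr) +
        ku.det • (zb 3 2 d32 * zb 2 0 d20 * (zb 1 0 d10).adjugate))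
  | .r => ((zb 1 0 d10).det * ku.det ^ 2 * (zb 7 6 d76).det) • kr
  | .ze => ((zb 1 0 d10).det * (zb 3 2 d32).det * ku.det) •
      (zb 7 6 d76 * (ku.det • zb 6 4 d64 - kw * ku.adjugate * zb 5 4 d54))
  | .ka => ((zb 1 0 d10).det * (zb 3 2 d32).det ^ 2 * (zb 7 6 d76).det) •
      ((ku.det • zb 7 5 d75 + zb 7 6 d76 * (kw * ku.adjugate)) * ku)

theorem sc {R : Type} [CommRing R] {c d : R} (M : M2 R) (h : c = d) : c • M = d • M := by rw [h]

theorem phK_gM_B : phK (gM .B) = FK • mm .B := by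
  rw [gM, phK_smul, map_mul, map_mul, map_pow, b32, bku, b76, phK_mul, phK_adj, phK_zb, phK_zb,
    YB20, YB10, A_B, smul_smul, FK]
  refine sc _ ?_
  ring

theorem phK_gM_S : phK (gM .S) = FK • mm .S := by
  rw [gM, phK_smul, map_mul, map_mul, map_pow, b10, bku, b76, phK_mul, phK_adj, phK_zb, phK_zb,
    YB42, YB32, A_B, smul_smul, FK]
  refine sc _ ?_
  ring

theorem phK_gM_u : phK (gM .u) = FK • mm .u := by
  rw [gM, phK_smul, map_mul, map_mul, map_pow, b10, bku, b76, phK_ku, smul_smul, FK]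
  refine sc _ ?_
  ring

theorem phK_gM_V : phK (gM .V) = FK • mm .V := by
  rw [gM, phK_smul, map_mul, map_mul, map_mul, map_pow, b10, b32, bku, b76, phK_mul, phK_adj,
    phK_ku, phK_zb, YB54, A_V, smul_smul, FK]
  refine sc _ ?_
  ring

theorem phK_gM_W : phK (gM .W) = FK • mm .W := by
  rw [gM, phK_smul, map_mul, map_mul, map_mul, b10, b32, bku, b76, phK_mul, phK_adj,
    phK_ku, phK_kw, A_W, smul_smul, FK]
  refine sc _ ?_
  ring

theorem phK_gM_p : phK (gM .p) = FK • mm .p := by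
  rw [gM, phK_smul, map_mul, map_mul, b32, bku, b76, phK_add, phK_add, phK_smul, map_mul, b10,
    bku, phK_smul, b10, phK_smul, bku, phK_mul, phK_mul, phK_mul, phK_mul, phK_adj, phK_adj,
    phK_ku, phK_kr, phK_zb, phK_zb, phK_zb, phK_zb, phK_zb, YB31, YB54, YB32, YB20, YB10, A_p,
    smul_smul, FK]
  refine sc _ ?_
  ring

theorem phK_gM_r : phK (gM .r) = FK • mm .r := by
  rw [gM, phK_smul, map_mul, map_mul, map_pow, b10, bku, b76, phK_kr, smul_smul, FK]
  refine sc _ ?_
  ring

theorem phK_gM_ze : phK (gM .ze) = FK • mm .ze := by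
  rw [gM, phK_smul, map_mul, map_mul, b10, b32, bku, phK_mul, phK_sub, phK_smul, bku, phK_mul,
    phK_mul, phK_adj, phK_ku, phK_kw, phK_zb, phK_zb, phK_zb, YB76, YB64, YB54, A_ze, smul_smul,
    FK]
  refine sc _ ?_
  ring

theorem phK_gM_ka : phK (gM .ka) = FK • mm .ka := by
  rw [gM, phK_smul, map_mul, map_mul, map_pow, b10, b32, b76, phK_mul, phK_add, phK_smul, bku,
    phK_mul, phK_mul, phK_adj, phK_ku, phK_kw, phK_zb, phK_zb, YB75, YB76, A_ka, smul_smul, FK]
  refine sc _ ?_
  ring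

theorem phK_gM (N : Bk) : phK (gM N) = FK • mm N := by
  cases N
  · rw [gM, phK_smul, bind_qK, phK_zb, YB10]
  · exact phK_gM_B
  · rw [gM, phK_smul, bind_qK, phK_zb, YB32]
  · exact phK_gM_S
  · exact phK_gM_u
  · exact phK_gM_V
  · exact phK_gM_W
  · rw [gM, phK_smul, bind_qK, phK_zb, YB76]
  · exact phK_gM_p
  · exact phK_gM_r
  · exact phK_gM_ze
  · exact phK_gM_ka

/-- `F X_j` as a polynomial in the coordinates of the point. -/
def gK (j : Tau) : PV := gM j.1 j.2.1 j.2.2

theorem bind_gK (j : Tau) : FK * X j = bind₁ Ych (gK j) := by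
  obtain ⟨N, a, b⟩ := j
  rw [gK, ← phK_apply, phK_gM]
  rfl

/-! ### Coordinates -/

/-- The identity matrices. -/
def pt1 : Tau → ℂ := fun j => if j.2.1 = j.2.2 then 1 else 0

theorem eval_det_mm (x : Tau → ℂ) (N : Bk) :
    eval x (mm N).det = x (N, 0, 0) * x (N, 1, 1) - x (N, 0, 1) * x (N, 1, 0) := by
  rw [Matrix.det_fin_two]
  simp [mm]

theorem eval_det_pt1 (N : Bk) : eval pt1 (mm N).det = 1 := by
  rw [eval_det_mm]
  simp [pt1]

theorem FK_ne : FK ≠ 0 := by
  intro h
  have := congrArg (eval pt1) h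
  rw [FK, map_mul, map_mul, map_mul, map_pow, map_pow] at this
  simp only [eval_det_pt1, map_zero] at this
  norm_num at this

theorem card_Co : Fintype.card (Co e0) = 48 := by
  have h : Fintype.card {p : I0 × I0 // e0 p.1 = e0 p.2 + 1} = 48 := by
    rw [Fintype.card_subtype]
    decide +kernel
  rw [← h]

theorem card_Tau : Fintype.card Tau = 48 := by
  rw [Fintype.card_prod, Fintype.card_prod, Fintype.card_fin]
  rfl

theorem card_eqK : Fintype.card (Co e0) = Fintype.card Tau := by rw [card_Co, card_Tau]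

/-- The coefficients of the new derivations. -/
def AK : Co e0 → Tau → Ach := fun k i =>
  bind₁ Ych (pderiv k (gK i)) - X i * bind₁ Ych (pderiv k qK)

/-- The chart is a coordinate system. -/
theorem coordK : Coord FK Ych AK := by
  have h := Coord.of_inv Ych qK gK (fun j => by rw [bind_qK]; exact bind_gK j)
    (by rw [bind_qK]; exact FK_ne) (Fintype.equivOfCardEq card_eqK)
  rw [bind_qK] at h
  exact h

/-- The cofactor of `F` in `q0 ^ 5`. -/
def cofFK : Ach := (mm .a).det ^ 4 * (mm .u).det ^ 3 * (mm .l).det ^ 4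

theorem FK_cof : FK * cofFK = q0 ^ 5 := by
  rw [FK, cofFK, q0]
  ring

theorem FK_q0 : FK = q0 * ((mm .q).det ^ 4 * (mm .u).det) := by
  rw [FK, q0]
  ring

theorem Coord.scale {τ κ : Type} [Fintype τ] [DecidableEq τ] [Fintype κ] [DecidableEq κ]
    {q : MvPolynomial τ ℂ} {Y : κ → MvPolynomial τ ℂ} {A : κ → τ → MvPolynomial τ ℂ}
    (h : Coord q Y A) (c : MvPolynomial τ ℂ) : Coord (c * q) Y (fun k j => c * A k j) where
  left := fun k l => by
    have := h.left k l
    simp only [mul_assoc, ← Finset.mul_sum, this]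
    split_ifs <;> simp
  right := fun i j => by
    have := h.right i j
    have h2 : ∀ k, pderiv j (Y k) * (c * A k i) = c * (pderiv j (Y k) * A k i) := fun k => by ring
    simp only [h2, ← Finset.mul_sum, this]
    split_ifs <;> simp

theorem coordQ : Coord (q0 ^ 5) Ych (fun k j => cofFK * AK k j) := by
  have h := coordK.scale cofFK
  rwa [mul_comm, FK_cof] at h

section Mod

variable {L : Type} [AddCommGroup L] [Module ℂ L]

theorem bij_of_mul {σ : Type} [DecidableEq σ] (W : WMod σ L) {f g h : MvPolynomial σ ℂ} (hh : g * h = f)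
    (hf : Function.Bijective (W.x f)) : Function.Bijective (W.x g) := by
  constructor
  · have h1 : Function.Injective (W.x h * W.x g) := by
      rw [← map_mul, mul_comm, hh]; exact hf.1
    exact Function.Injective.of_comp (f := W.x h) h1
  · have h1 : Function.Surjective (W.x g * W.x h) := by
      rw [← map_mul, hh]; exact hf.2
    exact Function.Surjective.of_comp (g := W.x h) h1

theorem bij_pow {σ : Type} [DecidableEq σ] (W : WMod σ L) {f : MvPolynomial σ ℂ}
    (hf : Function.Bijective (W.x f)) (n : ℕ) : Function.Bijective (W.x (f ^ n)) := by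
  induction n with
  | zero => rw [pow_zero, map_one]; exact Function.bijective_id
  | succ n ih => rw [pow_succ, map_mul]; exact ih.comp hf

theorem bij_FK (W : WMod Tau L) (hq : Function.Bijective (W.x q0)) :
    Function.Bijective (W.x FK) := bij_of_mul W FK_cof (bij_pow W hq 5)

theorem bij_q0 (W : WMod Tau L) (hq : Function.Bijective (W.x FK)) :
    Function.Bijective (W.x q0) := bij_of_mul W FK_q0.symm hq

/-- `LSimple` for a multiple with the same zeros. -/
theorem WMod.LSimple.of_dvd {σ : Type} [Fintype σ] [DecidableEq σ] {W : WMod σ L}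
    {f g c d : MvPolynomial σ ℂ} {n : ℕ} (h : W.LSimple f) (h1 : g = f * c) (h2 : g * d = f ^ n) :
    W.LSimple g where
  bij := bij_of_mul W h2 (bij_pow W h.bij n)
  nt := h.nt
  top := by
    intro N hN hN0 hg
    refine h.top N hN hN0 fun v hv => hg v ?_
    rw [h1, mul_comm, map_mul, Module.End.mul_apply]
    exact hN.xmem _ _ hv

theorem LSimple_FK {W : WMod Tau L} (h : W.LSimple q0) : W.LSimple FK :=
  h.of_dvd FK_q0 FK_cof

theorem bind_gK' (j : Tau) : ∃ (n : ℕ) (g : PV), FK ^ n * X j = bind₁ Ych g :=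
  ⟨1, gK j, by rw [pow_one]; exact bind_gK j⟩

/-- The module on `V`. -/
def WMod.onV (W : WMod Tau L) (hq : Function.Bijective (W.x q0)) : WMod (Co e0) L :=
  W.coord (bij_FK W hq) coordK

theorem WMod.onV_x (W : WMod Tau L) (hq : Function.Bijective (W.x q0)) (g : PV) :
    (W.onV hq).x g = W.x (bind₁ Ych g) := W.coord_x _ _ g

theorem WMod.Growth.onV {W : WMod Tau L} (h : W.Growth) (hq : Function.Bijective (W.x q0)) :
    (W.onV hq).Growth := WMod.Growth.coord h _ _ card_eqK

theorem WMod.LSimple.onV {W : WMod Tau L} (h : W.LSimple q0) : (W.onV h.bij).LSimple qK :=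
  (LSimple_FK h).coord coordK qK bind_qK bind_gK'

/-- Stable subspaces on `V` which are stable under `1 / q0` are stable in the chart. -/
theorem WMod.onV_stable {W : WMod Tau L} (hq : Function.Bijective (W.x q0)) {N : Submodule ℂ L}
    (hN : (W.onV hq).Stable N) (hNq : ∀ v, W.x FK v ∈ N → v ∈ N) : W.Stable N :=
  W.coord_stable (bij_FK W hq) coordK bind_gK' hN hNq

/-- The characteristic variety on `V`. -/
theorem WMod.InCh.onV {W : WMod Tau L} (hq : Function.Bijective (W.x q0)) {p ξ : Tau → ℂ}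
    (hCh : W.InCh p ξ) (hp : eval p q0 ≠ 0) (x η : Co e0 → ℂ) (hx : ∀ k, x k = eval p (Ych k))
    (hξ : ∀ j, ξ j = ∑ k, eval p (pderiv j (Ych k)) * η k) : (W.onV hq).InCh x η := by
  refine hCh.coord' (bij_FK W hq) coordK ?_ x η hx hξ
  intro h0
  have := congrArg (eval p) FK_cof
  rw [map_mul, h0, zero_mul, map_pow] at this
  exact hp (pow_eq_zero_iff (by norm_num) |>.1 this.symm)

end Mod

end Pool.DM
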