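import Pool.Agent.Work.MP_c20ce7_dm90.T6

set_option autoImplicit false
set_option linter.unusedSectionVars false
set_option linter.unusedSimpArgs false

/-!
# Outer products with functions and with delta functions

`PL τ L = (τ →₀ ℕ) →₀ L`: polynomials in the variables `T_k`, `k : τ`, with coefficients in `L`.
`cr k`: multiplication by `T_k`; `an k`: the derivative `∂ / ∂ T_k`; `lft T`: the operator `T` on the coefficients.
`W.prod s : WMod (σ ⊕ τ) (PL τ L)`: for `s k = true` the variable `x_k` acts by `T_k` and `d_k` by `∂ / ∂ T_k`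
(outer product with the functions), for `s k = false` the variable `x_k` acts by `- ∂ / ∂ T_k` and `d_k` by `T_k`
(outer product with the delta functions). `b0 : L → PL τ L` are the constants.
-/

open MvPolynomial

noncomputable section

namespace Pool.DM

section Ladder

variable {τ : Type} [DecidableEq τ] {L : Type} [AddCommGroup L] [Module ℂ L]

/-- Polynomials with coefficients in `L`. -/
abbrev PL (τ L : Type) [AddCommGroup L] : Type := (τ →₀ ℕ) →₀ L

/-- Multiplication by the variable `k`. -/
def cr (k : τ) : Module.End ℂ (PL τ L) :=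
  Finsupp.lmapDomain L ℂ (fun m => m + Finsupp.single k 1)

/-- The derivative in the variable `k`. -/
def an (k : τ) : Module.End ℂ (PL τ L) :=
  Finsupp.lsum ℂ (fun m => (m k : ℂ) • Finsupp.lsingle (m - Finsupp.single k 1))

/-- Operators on the coefficients. -/
def lft (T : Module.End ℂ L) : Module.End ℂ (PL τ L) := Finsupp.mapRange.linearMap T

/-- The constants. -/
def b0 : L →ₗ[ℂ] PL τ L := Finsupp.lsingle 0

theorem b0_apply (u : L) : (b0 u : PL τ L) = Finsupp.single 0 u := rfl

theorem b0_inj : Function.Injective (b0 : L →ₗ[ℂ] PL τ L) := Finsupp.single_injective 0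

theorem cr_single (k : τ) (m : τ →₀ ℕ) (u : L) :
    cr k (Finsupp.single m u : PL τ L) = Finsupp.single (m + Finsupp.single k 1) u := by
  simp [cr, Finsupp.lmapDomain_apply, Finsupp.mapDomain_single]

theorem an_single (k : τ) (m : τ →₀ ℕ) (u : L) :
    an k (Finsupp.single m u : PL τ L) =
      Finsupp.single (m - Finsupp.single k 1) ((m k : ℂ) • u) := by
  rw [an, Finsupp.lsum_single, LinearMap.smul_apply, Finsupp.lsingle_apply, Finsupp.smul_single]

theorem lft_single (T : Module.End ℂ L) (m : τ →₀ ℕ) (u : L) :
    lft T (Finsupp.single m u : PL τ L) = Finsupp.single m (T u) := by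
  simp [lft]

theorem lft_apply (T : Module.End ℂ L) (v : PL τ L) (m : τ →₀ ℕ) : lft T v m = T (v m) := by
  simp [lft]

theorem PL_ext {f g : Module.End ℂ (PL τ L)}
    (h : ∀ (m : τ →₀ ℕ) (u : L), f (Finsupp.single m u) = g (Finsupp.single m u)) : f = g :=
  Finsupp.lhom_ext h

theorem cr_apply (k : τ) (v : PL τ L) (m : τ →₀ ℕ) :
    cr k v m = if m k = 0 then 0 else v (m - Finsupp.single k 1) := by
  induction v using Finsupp.induction_linear with
  | zero => simp
  | add v w hv hw =>
    rw [map_add, Finsupp.add_apply, hv, hw]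
    split_ifs <;> simp
  | single n u =>
    rw [cr_single, Finsupp.single_apply]
    split_ifs with h1 h2 h2
    · subst h1
      simp at h2
    · subst h1
      simp
    · rfl
    · rw [Finsupp.single_apply, if_neg]
      rintro rfl
      apply h1
      ext j
      by_cases hj : j = k
      · subst hj
        simp only [Finsupp.coe_add, Finsupp.coe_tsub, Pi.add_apply, Pi.sub_apply,
          Finsupp.single_eq_same]
        omega
      · simp [Finsupp.single_apply, Ne.symm hj]

theorem an_apply (k : τ) (v : PL τ L) (m : τ →₀ ℕ) :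
    an k v m = ((m k : ℂ) + 1) • v (m + Finsupp.single k 1) := by
  induction v using Finsupp.induction_linear with
  | zero => simp
  | add v w hv hw =>
    rw [map_add, Finsupp.add_apply, hv, hw, Finsupp.add_apply, smul_add]
  | single n u =>
    rw [an_single, Finsupp.single_apply, Finsupp.single_apply]
    by_cases h : n = m + Finsupp.single k 1
    · subst h
      simp
    · rw [if_neg h, smul_zero]
      by_cases h0 : n k = 0
      · rw [h0]
        simp
      · rw [if_neg]
        rintro rfl
        apply h
        ext j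
        by_cases hj : j = k
        · subst hj
          simp only [Finsupp.coe_add, Finsupp.coe_tsub, Pi.add_apply, Pi.sub_apply,
            Finsupp.single_eq_same]
          omega
        · simp [Finsupp.single_apply, Ne.symm hj]

theorem cr_comm (k l : τ) : (cr k * cr l : Module.End ℂ (PL τ L)) = cr l * cr k := by
  refine PL_ext fun m u => ?_
  simp only [Module.End.mul_apply, cr_single]
  congr 1
  abel

theorem an_comm (k l : τ) : (an k * an l : Module.End ℂ (PL τ L)) = an l * an k := by
  refine LinearMap.ext fun v => Finsupp.ext fun m => ?_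
  simp only [Module.End.mul_apply, an_apply]
  by_cases h : k = l
  · subst h; rfl
  · have h1 : (m + Finsupp.single k 1 : τ →₀ ℕ) l = m l := by simp [Finsupp.single_apply, h]
    have h2 : (m + Finsupp.single l 1 : τ →₀ ℕ) k = m k := by
      simp [Finsupp.single_apply, Ne.symm h]
    rw [h1, h2, smul_smul, smul_smul, mul_comm, add_right_comm]

theorem an_cr (k l : τ) :
    (an k * cr l - cr l * an k : Module.End ℂ (PL τ L)) = if k = l then 1 else 0 := by
  refine PL_ext fun m u => ?_
  simp only [LinearMap.sub_apply, Module.End.mul_apply, cr_single, an_single]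
  by_cases h : k = l
  · subst h
    rw [if_pos rfl, Module.End.one_apply, add_tsub_cancel_right]
    by_cases h0 : m k = 0
    · simp [h0]
    · have h1 : m - Finsupp.single k 1 + Finsupp.single k 1 = m := by
        ext j
        by_cases hj : j = k
        · subst hj
          simp only [Finsupp.coe_add, Finsupp.coe_tsub, Pi.add_apply, Pi.sub_apply,
            Finsupp.single_eq_same]
          omega
        · simp [Finsupp.single_apply, Ne.symm hj]
      rw [h1, ← Finsupp.single_sub, ← sub_smul]
      simp
  · rw [if_neg h, LinearMap.zero_apply]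
    have h2 : (m + Finsupp.single l 1 : τ →₀ ℕ) k = m k := by
      simp [Finsupp.single_apply, Ne.symm h]
    have h1 : m + Finsupp.single l 1 - Finsupp.single k 1 =
        m - Finsupp.single k 1 + Finsupp.single l 1 := by
      ext j
      simp only [Finsupp.coe_add, Finsupp.coe_tsub, Pi.add_apply, Pi.sub_apply,
        Finsupp.single_apply]
      by_cases h3 : k = j
      · subst h3
        simp [Ne.symm h]
      · simp [h3]
    rw [h1, h2, sub_self]

theorem lft_cr (T : Module.End ℂ L) (k : τ) :
    (lft T * cr k : Module.End ℂ (PL τ L)) = cr k * lft T := by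
  refine PL_ext fun m u => ?_
  simp only [Module.End.mul_apply, cr_single, lft_single]

theorem lft_an (T : Module.End ℂ L) (k : τ) :
    (lft T * an k : Module.End ℂ (PL τ L)) = an k * lft T := by
  refine PL_ext fun m u => ?_
  simp only [Module.End.mul_apply, an_single, lft_single, map_smul]

theorem lft_mul (S T : Module.End ℂ L) :
    (lft (S * T) : Module.End ℂ (PL τ L)) = lft S * lft T := by
  refine PL_ext fun m u => ?_
  simp only [Module.End.mul_apply, lft_single]

theorem lft_sub (S T : Module.End ℂ L) :
    (lft (S - T) : Module.End ℂ (PL τ L)) = lft S - lft T := by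
  refine PL_ext fun m u => ?_
  simp only [LinearMap.sub_apply, lft_single, Finsupp.single_sub]

theorem lft_one : (lft (1 : Module.End ℂ L) : Module.End ℂ (PL τ L)) = 1 := by
  refine PL_ext fun m u => ?_
  simp only [lft_single, Module.End.one_apply]

theorem lft_zero : (lft (0 : Module.End ℂ L) : Module.End ℂ (PL τ L)) = 0 := by
  refine PL_ext fun m u => ?_
  simp only [lft_single, LinearMap.zero_apply, Finsupp.single_zero]

/-- `lft` as an algebra homomorphism. -/
def lftA : Module.End ℂ L →ₐ[ℂ] Module.End ℂ (PL τ L) :=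
  AlgHom.ofLinearMap
    { toFun := lft
      map_add' := fun S T => by
        refine PL_ext fun m u => ?_
        simp only [LinearMap.add_apply, lft_single, Finsupp.single_add]
      map_smul' := fun c T => by
        refine PL_ext fun m u => ?_
        simp only [LinearMap.smul_apply, lft_single, RingHom.id_apply, Finsupp.smul_single] }
    lft_one lft_mul

theorem lftA_apply (T : Module.End ℂ L) : (lftA T : Module.End ℂ (PL τ L)) = lft T := rfl

theorem mneg (S T : Module.End ℂ (PL τ L)) : S * (-T) = -(S * T) := by
  refine LinearMap.ext fun v => ?_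
  rw [LinearMap.neg_apply, Module.End.mul_apply, Module.End.mul_apply, LinearMap.neg_apply, map_neg]

theorem nmul (S T : Module.End ℂ (PL τ L)) : (-S) * T = -(S * T) := by
  refine LinearMap.ext fun v => ?_
  rw [LinearMap.neg_apply, Module.End.mul_apply, Module.End.mul_apply, LinearMap.neg_apply]

theorem PL_deg_le (m : τ →₀ ℕ) (k : τ) : m k ≤ m.degree := Finsupp.le_degree k m

theorem PL_deg_add (m : τ →₀ ℕ) (k : τ) : (m + Finsupp.single k 1).degree = m.degree + 1 := by
  rw [map_add, Finsupp.degree_single]

/-- A subspace which is stable under all creation operators and contains the constants is everything. -/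
theorem PL_top (N : Submodule ℂ (PL τ L)) (hc : ∀ k, ∀ v ∈ N, cr k v ∈ N)
    (h0 : ∀ u : L, b0 u ∈ N) : N = ⊤ := by
  have h1 : ∀ (m : τ →₀ ℕ) (u : L), (Finsupp.single m u : PL τ L) ∈ N := by
    intro m
    induction m using Finsupp.induction_linear with
    | zero => exact h0
    | add a b ha hb =>
      intro u
      have h2 : ∀ (a b : τ →₀ ℕ) (u : L), (Finsupp.single b u : PL τ L) ∈ N →
          (Finsupp.single (b + a) u : PL τ L) ∈ N := by
        intro a
        induction a using Finsupp.induction_linear with
        | zero => intro b u h; rwa [add_zero]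
        | add a a' ha ha' => intro b u h; rw [← add_assoc]; exact ha' _ _ (ha _ _ h)
        | single k n =>
          induction n with
          | zero => intro b u h; rwa [Finsupp.single_zero, add_zero]
          | succ n ih =>
            intro b u h
            have h3 := hc k _ (ih b u h)
            rw [cr_single] at h3
            rwa [Finsupp.single_add, ← add_assoc]
      have h3 := h2 a b u (hb u)
      rwa [add_comm] at h3
    | single k n =>
      intro u
      induction n with
      | zero => rw [Finsupp.single_zero]; exact h0 u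
      | succ n ih =>
        have h3 := hc k _ ih
        rw [cr_single] at h3
        rwa [Finsupp.single_add]
  rw [eq_top_iff]
  intro v _
  rw [← Finsupp.sum_single v]
  exact Submodule.sum_mem _ fun m _ => h1 m _

/-- A nonzero subspace which is stable under all annihilation operators contains a nonzero constant. -/
theorem PL_desc (N : Submodule ℂ (PL τ L)) (ha : ∀ k, ∀ v ∈ N, an k v ∈ N) (hN : N ≠ ⊥) :
    ∃ u : L, u ≠ 0 ∧ b0 u ∈ N := by
  have key : ∀ n : ℕ, ∀ v ∈ N, v ≠ 0 → (∀ m, v m ≠ 0 → m.degree ≤ n) →
      ∃ u : L, u ≠ 0 ∧ b0 u ∈ N := by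
    intro n
    induction n with
    | zero =>
      intro v hv hv0 hd
      refine ⟨v 0, ?_, ?_⟩
      · intro h
        apply hv0
        ext m
        by_contra hm
        have h1 := hd m hm
        have h2 : m = 0 := (Finsupp.degree_eq_zero_iff m).1 (Nat.le_zero.1 h1)
        rw [h2] at hm
        exact hm h
      · have h1 : v = b0 (v 0) := by
          ext m
          rw [b0_apply, Finsupp.single_apply]
          split_ifs with h
          · rw [← h]
          · by_contra hm
            have h1 := hd m hm
            exact h ((Finsupp.degree_eq_zero_iff m).1 (Nat.le_zero.1 h1)).symm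
        rw [← h1]
        exact hv
    | succ n ih =>
      intro v hv hv0 hd
      by_cases h : ∃ k, an k v ≠ 0
      · obtain ⟨k, hk⟩ := h
        refine ih _ (ha k v hv) hk fun m hm => ?_
        rw [an_apply] at hm
        have h1 := hd _ (right_ne_zero_of_smul hm)
        rw [PL_deg_add] at h1
        omega
      · push Not at h
        refine ih v hv hv0 fun m hm => ?_
        by_contra hmd
        have hm0 : m ≠ 0 := by
          rintro rfl
          simp at hmd
        obtain ⟨k, hk⟩ := Finsupp.ne_iff.1 hm0
        have h1 := DFunLike.congr_fun (h k) (m - Finsupp.single k 1)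
        rw [an_apply, Finsupp.zero_apply] at h1
        have h2 : m - Finsupp.single k 1 + Finsupp.single k 1 = m := by
          ext j
          by_cases hj : j = k
          · subst hj
            simp only [Finsupp.coe_add, Finsupp.coe_tsub, Pi.add_apply, Pi.sub_apply,
              Finsupp.single_eq_same]
            simp only [Finsupp.coe_zero, Pi.zero_apply] at hk
            omega
          · simp [Finsupp.single_apply, Ne.symm hj]
        rw [h2] at h1
        rcases smul_eq_zero.1 h1 with h3 | h3
        · exact Nat.cast_add_one_ne_zero _ h3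
        · exact hm h3
  obtain ⟨v, hv, hv0⟩ := Submodule.exists_mem_ne_zero_of_ne_bot hN
  refine key (v.support.sup fun m => m.degree) v hv hv0 fun m hm => ?_
  exact Finset.le_sup (f := fun m : τ →₀ ℕ => m.degree) (Finsupp.mem_support_iff.2 hm)

end Ladder

variable {σ : Type} [Fintype σ] [DecidableEq σ] {L : Type} [AddCommGroup L] [Module ℂ L]
variable {τ : Type} [Fintype τ] [DecidableEq τ]

theorem mk'_x (A D : σ → Module.End ℂ L) (hA : ∀ i j, A i * A j = A j * A i)
    (hD : ∀ i j, D i * D j = D j * D i)
    (hc : ∀ i j, D i * A j - A j * D i = if i = j then 1 else 0) (i : σ) :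
    (WMod.mk' A D hA hD hc).x (X i) = A i := homOf_X A hA i

theorem mk'_d (A D : σ → Module.End ℂ L) (hA : ∀ i j, A i * A j = A j * A i)
    (hD : ∀ i j, D i * D j = D j * D i)
    (hc : ∀ i j, D i * A j - A j * D i = if i = j then 1 else 0) (i : σ) :
    (WMod.mk' A D hA hD hc).d (X i) = D i := homOf_X D hD i

/-- The position operators of the outer product. -/
def prX (W : WMod σ L) (s : τ → Bool) : σ ⊕ τ → Module.End ℂ (PL τ L) :=
  Sum.elim (fun i => lft (W.x (X i))) (fun k => if s k then cr k else - an k)

/-- The derivations of the outer product. -/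
def prD (W : WMod σ L) (s : τ → Bool) : σ ⊕ τ → Module.End ℂ (PL τ L) :=
  Sum.elim (fun i => lft (W.d (X i))) (fun k => if s k then an k else cr k)

/-- The outer product with functions (`s k = true`) and delta functions (`s k = false`). -/
def WMod.prod (W : WMod σ L) (s : τ → Bool) : WMod (σ ⊕ τ) (PL τ L) :=
  WMod.mk' (prX W s) (prD W s)
    (by
      rintro (i | k) (j | l)
      · simp only [prX, Sum.elim_inl]
        rw [← lft_mul, ← lft_mul, ← map_mul, ← map_mul, mul_comm]
      · simp only [prX, Sum.elim_inl, Sum.elim_inr]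
        split_ifs
        · exact lft_cr _ _
        · rw [mneg, nmul, lft_an]
      · simp only [prX, Sum.elim_inl, Sum.elim_inr]
        split_ifs
        · exact (lft_cr _ _).symm
        · rw [mneg, nmul, lft_an]
      · by_cases hkl : k = l
        · subst hkl; rfl
        have h1 := an_cr (L := L) k l
        rw [if_neg hkl, sub_eq_zero] at h1
        have h2 := an_cr (L := L) l k
        rw [if_neg (Ne.symm hkl), sub_eq_zero] at h2
        simp only [prX, Sum.elim_inr]
        split_ifs
        · exact cr_comm k l
        · rw [mneg, nmul, h2]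
        · rw [mneg, nmul, h1]
        · rw [mneg, nmul, mneg, nmul, an_comm])
    (by
      rintro (i | k) (j | l)
      · simp only [prD, Sum.elim_inl]
        rw [← lft_mul, ← lft_mul, ← map_mul, ← map_mul, mul_comm]
      · simp only [prD, Sum.elim_inl, Sum.elim_inr]
        split_ifs
        · exact lft_an _ _
        · exact lft_cr _ _
      · simp only [prD, Sum.elim_inl, Sum.elim_inr]
        split_ifs
        · exact (lft_an _ _).symm
        · exact (lft_cr _ _).symm
      · by_cases hkl : k = l
        · subst hkl; rfl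
        have h1 := an_cr (L := L) k l
        rw [if_neg hkl, sub_eq_zero] at h1
        have h2 := an_cr (L := L) l k
        rw [if_neg (Ne.symm hkl), sub_eq_zero] at h2
        simp only [prD, Sum.elim_inr]
        split_ifs
        · exact an_comm k l
        · exact h1
        · exact h2.symm
        · exact cr_comm k l)
    (by
      rintro (i | k) (j | l)
      · simp only [prD, prX, Sum.elim_inl]
        rw [← lft_mul, ← lft_mul, ← lft_sub, W.comm]
        by_cases h : i = j
        · subst h; simp [lft_one]
        · have h' : (Sum.inl i : σ ⊕ τ) ≠ Sum.inl j := fun e => h (Sum.inl.inj e)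
          rw [if_neg h, if_neg h', lft_zero]
      · simp only [prD, prX, Sum.elim_inl, Sum.elim_inr]
        rw [if_neg (by simp : ¬ ((Sum.inl i : σ ⊕ τ) = Sum.inr l))]
        split_ifs
        · rw [lft_cr, sub_self]
        · rw [mneg, nmul, lft_an, sub_self]
      · simp only [prD, prX, Sum.elim_inl, Sum.elim_inr]
        rw [if_neg (by simp : ¬ ((Sum.inr k : σ ⊕ τ) = Sum.inl j))]
        split_ifs
        · rw [lft_an, sub_self]
        · rw [lft_cr, sub_self]
      · simp only [prD, prX, Sum.elim_inr]
        by_cases hkl : k = l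
        · subst hkl
          rw [if_pos rfl]
          have h1 := an_cr (L := L) k k
          rw [if_pos rfl] at h1
          split_ifs
          · exact h1
          · rw [mneg, nmul, ← h1]
            abel
        · have h' : (Sum.inr k : σ ⊕ τ) ≠ Sum.inr l := fun e => hkl (Sum.inr.inj e)
          rw [if_neg h']
          have h1 := an_cr (L := L) k l
          rw [if_neg hkl, sub_eq_zero] at h1
          have h2 := an_cr (L := L) l k
          rw [if_neg (Ne.symm hkl), sub_eq_zero] at h2
          split_ifs
          · rw [h1, sub_self]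
          · rw [mneg, nmul, an_comm, sub_self]
          · rw [cr_comm, sub_self]
          · rw [mneg, nmul, h2, sub_self])

theorem WMod.prod_x (W : WMod σ L) (s : τ → Bool) (i : σ ⊕ τ) :
    (W.prod s).x (X i) = prX W s i :=
  mk'_x _ _ _ _ _ i

theorem WMod.prod_d (W : WMod σ L) (s : τ → Bool) (i : σ ⊕ τ) :
    (W.prod s).d (X i) = prD W s i :=
  mk'_d _ _ _ _ _ i

/-- Functions of the old variables act on the coefficients. -/
theorem WMod.prod_x_inl (W : WMod σ L) (s : τ → Bool) (f : MvPolynomial σ ℂ) :
    (W.prod s).x (rename Sum.inl f) = lft (W.x f) := by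
  have h : (W.prod s).x.comp (rename Sum.inl) = lftA.comp W.x := by
    refine MvPolynomial.algHom_ext fun i => ?_
    rw [AlgHom.comp_apply, rename_X, W.prod_x, AlgHom.comp_apply, lftA_apply]
    rfl
  exact DFunLike.congr_fun h f

/-- Constant coefficient operators in the old variables act on the coefficients. -/
theorem WMod.prod_d_inl (W : WMod σ L) (s : τ → Bool) (f : MvPolynomial σ ℂ) :
    (W.prod s).d (rename Sum.inl f) = lft (W.d f) := by
  have h : (W.prod s).d.comp (rename Sum.inl) = lftA.comp W.d := by
    refine MvPolynomial.algHom_ext fun i => ?_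
    rw [AlgHom.comp_apply, rename_X, W.prod_d, AlgHom.comp_apply, lftA_apply]
    rfl
  exact DFunLike.congr_fun h f

theorem WMod.prod_x_true (W : WMod σ L) (s : τ → Bool) (k : τ) (h : s k = true) :
    (W.prod s).x (X (Sum.inr k)) = cr k := by
  rw [W.prod_x, prX, Sum.elim_inr, if_pos h]

theorem WMod.prod_d_true (W : WMod σ L) (s : τ → Bool) (k : τ) (h : s k = true) :
    (W.prod s).d (X (Sum.inr k)) = an k := by
  rw [W.prod_d, prD, Sum.elim_inr, if_pos h]

theorem WMod.prod_x_false (W : WMod σ L) (s : τ → Bool) (k : τ) (h : s k = false) :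
    (W.prod s).x (X (Sum.inr k)) = - an k := by
  rw [W.prod_x, prX, Sum.elim_inr, if_neg (by rw [h]; simp)]

theorem WMod.prod_d_false (W : WMod σ L) (s : τ → Bool) (k : τ) (h : s k = false) :
    (W.prod s).d (X (Sum.inr k)) = cr k := by
  rw [W.prod_d, prD, Sum.elim_inr, if_neg (by rw [h]; simp)]

theorem lft_b0 (T : Module.End ℂ L) (u : L) : lft T (b0 u : PL τ L) = b0 (T u) := lft_single T 0 u

theorem an_b0 (k : τ) (u : L) : an k (b0 u : PL τ L) = 0 := by
  rw [b0_apply, an_single]
  simp

/-- `b0` is compatible with the operators in the old variables and is killed by the derivations of the new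
variables of function type and by the new variables of delta type. -/
theorem WMod.prod_b0 (W : WMod σ L) (s : τ → Bool) (u : L) :
    (∀ f : MvPolynomial σ ℂ, (W.prod s).x (rename Sum.inl f) (b0 u) = b0 (W.x f u)) ∧
    (∀ f : MvPolynomial σ ℂ, (W.prod s).d (rename Sum.inl f) (b0 u) = b0 (W.d f u)) ∧
    (∀ k, s k = true → (W.prod s).d (X (Sum.inr k)) (b0 u) = 0) ∧
    (∀ k, s k = false → (W.prod s).x (X (Sum.inr k)) (b0 u) = 0) := by
  refine ⟨fun f => ?_, fun f => ?_, fun k h => ?_, fun k h => ?_⟩
  · rw [W.prod_x_inl, lft_b0]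
  · rw [W.prod_d_inl, lft_b0]
  · rw [W.prod_d_true s k h, an_b0]
  · rw [W.prod_x_false s k h, LinearMap.neg_apply, an_b0, neg_zero]

/-- Stable subspaces are stable under creation and annihilation. -/
theorem WMod.prod_stable (W : WMod σ L) (s : τ → Bool) (N : Submodule ℂ (PL τ L))
    (hN : (W.prod s).Stable N) :
    (∀ k, ∀ v ∈ N, cr k v ∈ N) ∧ (∀ k, ∀ v ∈ N, an k v ∈ N) ∧
    (∀ i, ∀ v ∈ N, lft (W.x (X i)) v ∈ N) ∧ (∀ i, ∀ v ∈ N, lft (W.d (X i)) v ∈ N) := by
  refine ⟨fun k v hv => ?_, fun k v hv => ?_, fun i v hv => ?_, fun i v hv => ?_⟩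
  · cases h : s k
    · have h1 := (hN v hv).2 (Sum.inr k)
      rwa [W.prod_d_false s k h] at h1
    · have h1 := (hN v hv).1 (Sum.inr k)
      rwa [W.prod_x_true s k h] at h1
  · cases h : s k
    · have h1 := (hN v hv).1 (Sum.inr k)
      rw [W.prod_x_false s k h, LinearMap.neg_apply] at h1
      exact neg_mem_iff.1 h1
    · have h1 := (hN v hv).2 (Sum.inr k)
      rwa [W.prod_d_true s k h] at h1
  · have h1 := (hN v hv).1 (Sum.inl i)
    rwa [W.prod_x] at h1
  · have h1 := (hN v hv).2 (Sum.inl i)
    rwa [W.prod_d] at h1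

/-- The constants in a stable subspace. -/
def WMod.cst (N : Submodule ℂ (PL τ L)) : Submodule ℂ L := N.comap b0

theorem WMod.mem_cst (N : Submodule ℂ (PL τ L)) (u : L) : u ∈ WMod.cst N ↔ b0 u ∈ N := Iff.rfl

theorem WMod.cst_stable (W : WMod σ L) (s : τ → Bool) (N : Submodule ℂ (PL τ L))
    (hN : (W.prod s).Stable N) : W.Stable (WMod.cst N) := by
  obtain ⟨-, -, h3, h4⟩ := W.prod_stable s N hN
  intro u hu
  refine ⟨fun i => ?_, fun i => ?_⟩
  · have := h3 i _ hu
    rwa [lft_b0] at this
  · have := h4 i _ hu
    rwa [lft_b0] at this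

/-- **DESC.** A nonzero stable subspace contains a nonzero constant. -/
theorem WMod.cst_ne (W : WMod σ L) (s : τ → Bool) (N : Submodule ℂ (PL τ L))
    (hN : (W.prod s).Stable N) (h0 : N ≠ ⊥) : WMod.cst N ≠ ⊥ := by
  obtain ⟨u, hu, huN⟩ := PL_desc N (W.prod_stable s N hN).2.1 h0
  intro h
  have : u ∈ WMod.cst N := huN
  rw [h, Submodule.mem_bot] at this
  exact hu this

theorem WMod.cst_top (W : WMod σ L) (s : τ → Bool) (N : Submodule ℂ (PL τ L))
    (hN : (W.prod s).Stable N) (h : WMod.cst N = ⊤) : N = ⊤ :=
  PL_top N (W.prod_stable s N hN).1 fun u => (WMod.mem_cst N u).1 (h ▸ Submodule.mem_top)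

/-- The outer product of a simple module is simple. -/
theorem WMod.Simple.prod {W : WMod σ L} (h : W.Simple) (s : τ → Bool) : (W.prod s).Simple := by
  refine ⟨fun u _ => ⟨fun _ => trivial, fun _ => trivial⟩, ?_, ?_⟩
  · intro h1
    obtain ⟨u, -, hu⟩ := Submodule.exists_mem_ne_zero_of_ne_bot h.2.1
    have h2 : (b0 u : PL τ L) ∈ (⊤ : Submodule ℂ (PL τ L)) := trivial
    rw [h1, Submodule.mem_bot] at h2
    exact hu (b0_inj (by rw [h2, map_zero]))
  · intro N hN _
    by_cases h0 : N = ⊥
    · exact Or.inl h0
    right
    refine W.cst_top s N hN ?_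
    rcases h.2.2 _ (W.cst_stable s N hN) le_top with h1 | h1
    · exact absurd h1 (W.cst_ne s N hN h0)
    · exact h1

theorem lft_bij {T : Module.End ℂ L} (h : Function.Bijective T) :
    Function.Bijective (lft T : Module.End ℂ (PL τ L)) := by
  constructor
  · intro v w hvw
    refine Finsupp.ext fun m => h.1 ?_
    rw [← lft_apply, ← lft_apply, hvw]
  · intro v
    induction v using Finsupp.induction_linear with
    | zero => exact ⟨0, map_zero _⟩
    | add v w hv hw =>
      obtain ⟨v', rfl⟩ := hv
      obtain ⟨w', rfl⟩ := hw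
      exact ⟨v' + w', map_add _ _ _⟩
    | single m u =>
      obtain ⟨u', rfl⟩ := h.2 u
      exact ⟨Finsupp.single m u', lft_single _ _ _⟩

/-- The outer product of an `LSimple` module. -/
theorem WMod.LSimple.prod {W : WMod σ L} {f : MvPolynomial σ ℂ} (h : W.LSimple f) (s : τ → Bool) :
    (W.prod s).LSimple (rename Sum.inl f) where
  bij := by
    rw [W.prod_x_inl]
    exact lft_bij h.bij
  nt := by
    have := h.nt
    obtain ⟨u, hu⟩ := exists_ne (0 : L)
    exact ⟨b0 u, 0, fun h2 => hu (b0_inj (by rw [h2, map_zero]))⟩
  top := by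
    intro N hN h0 hf
    refine W.cst_top s N hN (h.top _ (W.cst_stable s N hN) (W.cst_ne s N hN h0) ?_)
    intro u hu
    refine hf _ ?_
    rw [(W.prod_b0 s u).1]
    exact hu

/-! ## Growth -/

/-- The filtration of the outer product. -/
def PLfil (G : ℕ → Submodule ℂ L) (k : ℕ) : Submodule ℂ (PL τ L) where
  carrier := {v | ∀ m, (v m ≠ 0 → m.degree ≤ k) ∧ v m ∈ G k}
  add_mem' := by
    intro v w hv hw m
    refine ⟨fun h => ?_, (G k).add_mem (hv m).2 (hw m).2⟩
    by_cases h1 : v m = 0
    · rw [Finsupp.add_apply, h1, zero_add] at h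
      exact (hw m).1 h
    · exact (hv m).1 h1
  zero_mem' := by
    intro m
    exact ⟨fun h => absurd rfl h, (G k).zero_mem⟩
  smul_mem' := by
    intro c v hv m
    refine ⟨fun h => ?_, (G k).smul_mem c (hv m).2⟩
    rw [Finsupp.smul_apply] at h
    exact (hv m).1 (right_ne_zero_of_smul h)

theorem mem_PLfil (G : ℕ → Submodule ℂ L) (k : ℕ) (v : PL τ L) :
    v ∈ PLfil G k ↔ ∀ m, (v m ≠ 0 → m.degree ≤ k) ∧ v m ∈ G k := Iff.rfl

/-- The coefficients. -/
def PLco (G : ℕ → Submodule ℂ L) (k : ℕ) :
    (PLfil G k : Submodule ℂ (PL τ L)) →ₗ[ℂ] ((τ → Fin (k + 1)) → G k) where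
  toFun := fun v g => ⟨(v : PL τ L) (Finsupp.equivFunOnFinite.symm fun t => (g t : ℕ)),
    (v.2 _).2⟩
  map_add' := fun v w => rfl
  map_smul' := fun c v => rfl

theorem PLco_inj (G : ℕ → Submodule ℂ L) (k : ℕ) :
    Function.Injective (PLco (τ := τ) G k) := by
  rw [← LinearMap.ker_eq_bot, LinearMap.ker_eq_bot']
  intro v hv
  refine Subtype.ext (Finsupp.ext fun m => ?_)
  by_contra hm
  have hd := (v.2 m).1 hm
  have h1 := congrFun hv fun t => (⟨m t, by have := PL_deg_le m t; omega⟩ : Fin (k + 1))
  have h2 := congrArg Subtype.val h1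
  apply hm
  have h3 : (Finsupp.equivFunOnFinite.symm fun t => m t) = m := by
    ext t; rfl
  change (v : PL τ L) (Finsupp.equivFunOnFinite.symm fun t => m t) = 0 at h2
  rwa [h3] at h2

/-- The growth type of the outer product. -/
theorem WMod.GrowthBy.prod {W : WMod σ L} {G : ℕ → Submodule ℂ L} {c : ℝ} (h : W.GrowthBy G c)
    (s : τ → Bool) : (W.prod s).GrowthBy (fun k => PLfil G k) c := by
  have hcr : ∀ k t, ∀ v ∈ (PLfil G k : Submodule ℂ (PL τ L)), cr t v ∈ PLfil G (k + 1) := by
    intro k t v hv m
    rw [cr_apply]
    split_ifs with h0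
    · exact ⟨fun h => absurd rfl h, (G (k + 1)).zero_mem⟩
    · refine ⟨fun h1 => ?_, h.mono (Nat.le_succ k) (hv _).2⟩
      have h2 := (hv _).1 h1
      have h3 : m - Finsupp.single t 1 + Finsupp.single t 1 = m := by
        ext j
        by_cases hj : j = t
        · subst hj
          simp only [Finsupp.coe_add, Finsupp.coe_tsub, Pi.add_apply, Pi.sub_apply,
            Finsupp.single_eq_same]
          omega
        · simp [Finsupp.single_apply, Ne.symm hj]
      rw [← h3, PL_deg_add]
      omega
  have han : ∀ k t, ∀ v ∈ (PLfil G k : Submodule ℂ (PL τ L)), an t v ∈ PLfil G (k + 1) := by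
    intro k t v hv m
    rw [an_apply]
    refine ⟨fun h1 => ?_, (G (k + 1)).smul_mem _ (h.mono (Nat.le_succ k) (hv _).2)⟩
    have h2 := (hv _).1 (right_ne_zero_of_smul h1)
    rw [PL_deg_add] at h2
    omega
  have hlft : ∀ k (T : Module.End ℂ L), (∀ u ∈ G k, T u ∈ G (k + 1)) →
      ∀ v ∈ (PLfil G k : Submodule ℂ (PL τ L)), lft T v ∈ PLfil G (k + 1) := by
    intro k T hT v hv m
    rw [lft_apply]
    refine ⟨fun h1 => ?_, hT _ (hv m).2⟩
    have h2 : v m ≠ 0 := by
      intro h3
      rw [h3, map_zero] at h1
      exact h1 rfl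
    exact ((hv m).1 h2).trans (Nat.le_succ k)
  constructor
  · intro a b hab v hv m
    exact ⟨fun h1 => ((hv m).1 h1).trans hab, h.mono hab (hv m).2⟩
  · intro k
    have := h.fin k
    exact Module.Finite.of_injective (PLco G k) (PLco_inj G k)
  · rintro k (i | t) v hv
    · rw [W.prod_x]
      exact hlft k _ (fun u hu => h.hx k i u hu) v hv
    · cases hs : s t
      · rw [W.prod_x_false s t hs, LinearMap.neg_apply]
        exact neg_mem_iff.2 (han k t v hv)
      · rw [W.prod_x_true s t hs]
        exact hcr k t v hv
  · rintro k (i | t) v hv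
    · rw [W.prod_d]
      exact hlft k _ (fun u hu => h.hd k i u hu) v hv
    · cases hs : s t
      · rw [W.prod_d_false s t hs]
        exact hcr k t v hv
      · rw [W.prod_d_true s t hs]
        exact han k t v hv
  · intro v
    induction v using Finsupp.induction_linear with
    | zero => exact ⟨0, Submodule.zero_mem _⟩
    | add v w hv hw =>
      obtain ⟨a, ha⟩ := hv
      obtain ⟨b, hb⟩ := hw
      refine ⟨max a b, Submodule.add_mem _ ?_ ?_⟩
      · intro m
        exact ⟨fun h1 => ((ha m).1 h1).trans (le_max_left _ _), h.mono (le_max_left _ _) (ha m).2⟩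
      · intro m
        exact ⟨fun h1 => ((hb m).1 h1).trans (le_max_right _ _), h.mono (le_max_right _ _) (hb m).2⟩
    | single m u =>
      obtain ⟨a, ha⟩ := h.exh u
      refine ⟨max a m.degree, fun n => ?_⟩
      rw [Finsupp.single_apply]
      split_ifs with h1
      · subst h1
        exact ⟨fun _ => le_max_right _ _, h.mono (le_max_left _ _) ha⟩
      · exact ⟨fun h2 => absurd rfl h2, Submodule.zero_mem _⟩
  · intro k
    have := h.fin k
    have h1 := LinearMap.finrank_le_finrank_of_injective (PLco_inj (τ := τ) G k)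
    have h2 : Module.finrank ℂ ((τ → Fin (k + 1)) → G k) =
        (k + 1) ^ Fintype.card τ * Module.finrank ℂ (G k) := by
      rw [Module.finrank_pi_fintype, Finset.sum_const, Finset.card_univ, Fintype.card_fun,
        Fintype.card_fin, smul_eq_mul]
    rw [h2] at h1
    have h3 : (Module.finrank ℂ (PLfil G k : Submodule ℂ (PL τ L)) : ℝ) ≤
        ((k : ℝ) + 1) ^ Fintype.card τ * Module.finrank ℂ (G k) := by
      exact_mod_cast h1
    refine h3.trans ?_
    have h4 := mul_le_mul_of_nonneg_left (h.bound k)
      (show (0 : ℝ) ≤ ((k : ℝ) + 1) ^ Fintype.card τ by positivity)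
    refine h4.trans (le_of_eq ?_)
    rw [Fintype.card_sum, pow_add]
    ring

theorem WMod.Growth.prod {W : WMod σ L} (h : W.Growth) (s : τ → Bool) : (W.prod s).Growth := by
  obtain ⟨G, c, hG⟩ := h
  exact ⟨_, c, hG.prod s⟩

end Pool.DM
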