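import Pool.Agent.Work.MP_c20ce7_dm70.S3
import Pool.Agent.Work.MP_c20ce7_dm77.Prod

set_option autoImplicit false
set_option linter.unusedSectionVars false
set_option linter.unusedSimpArgs false

/-!
# Twisted functions `ℂ[x, 1/f] f^c`

`xinv hf`: the inverse of the operator `f`. `W.tw f hf c`: the same functions, the derivations
`d_i + c (∂_i f) / f` (for modules on which `f` is bijective). `WMod.poly σ`: the module of the polynomials.
`WMod.pw f c`: the module `ℂ[x, 1/f] f^c` on `PW f`, `pmk f h k` is the vector `h f^(c - k)`.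
-/

open MvPolynomial

noncomputable section

namespace Pool.DM

attribute [local instance] instAddCommGroupM instModuleMvPolynomialComplexM instModuleComplexLoc

variable {σ : Type} [Fintype σ] [DecidableEq σ] {L : Type} [AddCommGroup L] [Module ℂ L]

section Inv

variable {W : WMod σ L} {f : MvPolynomial σ ℂ} (hf : Function.Bijective (W.x f))

/-- The inverse of the operator `f`. -/
def xinv : Module.End ℂ L := (LinearEquiv.ofBijective (W.x f) hf).symm.toLinearMap

theorem xinv_x (v : L) : xinv hf (W.x f v) = v :=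
  (LinearEquiv.ofBijective (W.x f) hf).symm_apply_apply v

theorem x_xinv (v : L) : W.x f (xinv hf v) = v :=
  (LinearEquiv.ofBijective (W.x f) hf).apply_symm_apply v

theorem xinv_mul : xinv hf * W.x f = 1 := LinearMap.ext fun v => xinv_x hf v

theorem mul_xinv : W.x f * xinv hf = 1 := LinearMap.ext fun v => x_xinv hf v

theorem xinv_comm (g : MvPolynomial σ ℂ) : xinv hf * W.x g = W.x g * xinv hf := by
  have h1 : W.x g * W.x f = W.x f * W.x g := by rw [← map_mul, ← map_mul, mul_comm]
  calc xinv hf * W.x g = xinv hf * (W.x g * (W.x f * xinv hf)) := by rw [mul_xinv, mul_one]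
    _ = xinv hf * (W.x f * W.x g) * xinv hf := by rw [← mul_assoc (W.x g), h1]; noncomm_ring
    _ = (xinv hf * W.x f) * (W.x g * xinv hf) := by noncomm_ring
    _ = _ := by rw [xinv_mul, one_mul]

theorem d_xinv (i : σ) : W.d (X i) * xinv hf =
    xinv hf * W.d (X i) - W.x (pderiv i f) * (xinv hf * xinv hf) := by
  have h1 := W.d_mul_x i f
  have h2 : xinv hf * (W.d (X i) * W.x f) * xinv hf = xinv hf * W.d (X i) := by
    rw [mul_assoc, mul_assoc, mul_xinv, mul_one]
  have h3 : xinv hf * (W.x f * W.d (X i) + W.x (pderiv i f)) * xinv hf =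
      W.d (X i) * xinv hf + W.x (pderiv i f) * (xinv hf * xinv hf) := by
    rw [mul_add, add_mul, ← mul_assoc, xinv_mul, one_mul, xinv_comm, mul_assoc (W.x _)]
  rw [h1, h3] at h2
  rw [← h2, add_sub_cancel_right]

/-- The logarithmic derivative of `f`. -/
def ld (i : σ) : Module.End ℂ L := W.x (pderiv i f) * xinv hf

theorem ld_comm_x (i : σ) (g : MvPolynomial σ ℂ) : ld hf i * W.x g = W.x g * ld hf i := by
  rw [ld, mul_assoc, xinv_comm, ← mul_assoc, ← mul_assoc, ← map_mul, ← map_mul, mul_comm]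

theorem ld_mul (i j : σ) : ld hf i * ld hf j =
    W.x (pderiv i f * pderiv j f) * (xinv hf * xinv hf) := by
  have h := xinv_comm hf (pderiv j f)
  calc ld hf i * ld hf j = W.x (pderiv i f) * (xinv hf * W.x (pderiv j f)) * xinv hf := by
        rw [ld, ld]; noncomm_ring
    _ = (W.x (pderiv i f) * W.x (pderiv j f)) * (xinv hf * xinv hf) := by rw [h]; noncomm_ring
    _ = _ := by rw [← map_mul]

theorem ld_comm (i j : σ) : ld hf i * ld hf j = ld hf j * ld hf i := by
  rw [ld_mul, ld_mul, mul_comm (pderiv i f)]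

theorem d_ld (i j : σ) : W.d (X i) * ld hf j - ld hf j * W.d (X i) =
    W.x (pderiv i (pderiv j f)) * xinv hf -
      W.x (pderiv i f * pderiv j f) * (xinv hf * xinv hf) := by
  rw [ld, ← mul_assoc, W.d_mul_x, add_mul, mul_assoc, d_xinv, mul_sub, ← mul_assoc, map_mul,
    ← mul_assoc (W.x (pderiv j f)) (W.x (pderiv i f)), ← map_mul, ← map_mul,
    mul_comm (pderiv j f)]
  noncomm_ring

/-- The twisted derivations. -/
def twd (c : ℂ) (i : σ) : Module.End ℂ L := W.d (X i) + c • ld hf i

theorem twd_comm (c : ℂ) (i j : σ) : twd hf c i * twd hf c j = twd hf c j * twd hf c i := by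
  have e1 : W.d (X i) * W.d (X j) = W.d (X j) * W.d (X i) := by
    rw [← map_mul, ← map_mul, mul_comm]
  have e2 : W.d (X i) * ld hf j - ld hf j * W.d (X i) =
      W.d (X j) * ld hf i - ld hf i * W.d (X j) := by
    rw [d_ld, d_ld, pderiv_swap, mul_comm (pderiv i f)]
  have e3 := ld_comm hf i j
  simp only [twd, mul_add, add_mul, smul_mul_assoc, mul_smul_comm, smul_smul]
  rw [e1, e3]
  linear_combination (norm := module) c • e2

end Inv

/-- The twist of a module by `f^c`. -/
def WMod.tw (W : WMod σ L) (f : MvPolynomial σ ℂ) (hf : Function.Bijective (W.x f)) (c : ℂ) :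
    WMod σ L where
  x := W.x
  d := homOf (twd hf c) (twd_comm hf c)
  comm := by
    intro i j
    rw [homOf_X, twd, add_mul, mul_add, smul_mul_assoc, mul_smul_comm, ld_comm_x, ← W.comm]
    abel

theorem WMod.tw_x (W : WMod σ L) (f : MvPolynomial σ ℂ) (hf : Function.Bijective (W.x f)) (c : ℂ)
    (g : MvPolynomial σ ℂ) : (W.tw f hf c).x g = W.x g := rfl

theorem WMod.tw_d (W : WMod σ L) (f : MvPolynomial σ ℂ) (hf : Function.Bijective (W.x f)) (c : ℂ)
    (i : σ) : (W.tw f hf c).d (X i) = W.d (X i) + c • (W.x (pderiv i f) * xinv hf) := by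
  change homOf (twd hf c) (twd_comm hf c) (X i) = _
  rw [homOf_X]
  rfl

theorem WMod.LSimple.tw {W : WMod σ L} {f : MvPolynomial σ ℂ} (h : W.LSimple f) (c : ℂ) :
    (W.tw f h.bij c).LSimple f where
  bij := h.bij
  nt := h.nt
  top := by
    intro N hN h0 hf
    refine h.top N ?_ h0 hf
    intro u hu
    refine ⟨fun i => (hN u hu).1 i, fun i => ?_⟩
    have h1 := (hN u hu).2 i
    rw [W.tw_d, LinearMap.add_apply, LinearMap.smul_apply] at h1
    have h2 : (W.x (pderiv i f) * xinv h.bij) u ∈ N := by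
      refine hN.xmem (pderiv i f) _ (hf _ ?_)
      change W.x f (xinv h.bij u) ∈ N
      rw [x_xinv]
      exact hu
    have h3 := N.sub_mem h1 (N.smul_mem c h2)
    rwa [add_sub_cancel_right] at h3

/-- The growth type is preserved by the twist. -/
theorem WMod.Growth.tw {W : WMod σ L} {f : MvPolynomial σ ℂ} (hG : W.Growth)
    (hf : Function.Bijective (W.x f)) (c : ℂ) : (W.tw f hf c).Growth := by
  obtain ⟨G, b, hG⟩ := hG
  set a := f.totalDegree with ha
  have hGx : ∀ (g : MvPolynomial σ ℂ) (l : ℕ), g.totalDegree ≤ l → ∀ k, ∀ u ∈ G k,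
      W.x g u ∈ G (k + l) := by
    intro g l hl k u hu
    rw [← W.nf_x]
    refine W.nf_filt G hG.mono hG.hx hG.hd l _ ?_ k u hu
    exact (totalDegree_rename_le _ _).trans hl
  have hGf : ∀ j k, ∀ u ∈ G k, W.x (f ^ j) u ∈ G (k + j * a) := by
    intro j k u hu
    exact hGx _ _ ((totalDegree_pow _ _)) k u hu
  let G' : ℕ → Submodule ℂ L := fun k => (G ((a + 1) * k)).comap (W.x (f ^ k))
  have hmem : ∀ k v, v ∈ G' k ↔ W.x (f ^ k) v ∈ G ((a + 1) * k) := fun k v => Iff.rfl
  have hbij : ∀ k, Function.Injective (W.x (f ^ k)) := fun k => W.x_pow_inj hf.1 k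
  refine ⟨G', b * ((a : ℝ) + 1) ^ Fintype.card σ, ⟨?_, ?_, ?_, ?_, ?_, ?_⟩⟩
  · refine monotone_nat_of_le_succ fun k v hv => ?_
    rw [hmem] at hv ⊢
    rw [pow_succ', map_mul, Module.End.mul_apply]
    have := hGx f a le_rfl _ _ hv
    exact hG.mono (by ring_nf; omega) this
  · intro k
    have := hG.fin ((a + 1) * k)
    let e : G' k →ₗ[ℂ] G ((a + 1) * k) :=
      (W.x (f ^ k)).restrict (p := G' k) (q := G ((a + 1) * k)) (fun v hv => hv)
    refine Module.Finite.of_injective e ?_
    intro v w hvw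
    exact Subtype.ext (hbij k (congrArg Subtype.val hvw))
  · intro k i v hv
    rw [W.tw_x, hmem, ← Module.End.mul_apply, ← map_mul]
    have h1 : f ^ (k + 1) * X i = X i * (f * f ^ k) := by ring
    rw [h1, map_mul, map_mul, Module.End.mul_apply, Module.End.mul_apply]
    have := hG.hx _ i _ (hGx f a le_rfl _ _ ((hmem k v).1 hv))
    exact hG.mono (by ring_nf; omega) this
  · intro k i v hv
    rw [hmem]
    have h1 : W.x (f ^ (k + 1)) ((W.tw f hf c).d (X i) v) =
        W.x f (W.d (X i) (W.x (f ^ k) v)) + (c - k) • W.x (pderiv i f) (W.x (f ^ k) v) := by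
      have h2 := LinearMap.congr_fun (W.d_mul_x i (f ^ k)) v
      rw [Module.End.mul_apply, LinearMap.add_apply, Module.End.mul_apply] at h2
      have h5 : W.x (f ^ (k + 1)) ((W.x (pderiv i f) * xinv hf) v) =
          W.x (pderiv i f) (W.x (f ^ k) v) := by
        rw [← Module.End.mul_apply, ← mul_assoc, ← map_mul,
          show f ^ (k + 1) * pderiv i f = pderiv i f * f ^ k * f by ring, map_mul, mul_assoc,
          mul_xinv, mul_one, map_mul, Module.End.mul_apply]
      have h6 : W.x f (W.x (pderiv i (f ^ k)) v) = (k : ℂ) • W.x (pderiv i f) (W.x (f ^ k) v) := by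
        rw [← Module.End.mul_apply, ← map_mul, ← Module.End.mul_apply, ← map_mul]
        have h7 : f * pderiv i (f ^ k) = (k : ℂ) • (pderiv i f * f ^ k) := by
          rcases k with _ | k
          · simp
          · rw [Derivation.leibniz_pow, smul_eq_mul, ← Nat.cast_smul_eq_nsmul ℂ, mul_smul_comm,
              Nat.add_sub_cancel, pow_succ]
            congr 1
            ring
        rw [h7, map_smul, LinearMap.smul_apply]
      rw [W.tw_d, LinearMap.add_apply, LinearMap.smul_apply, map_add, map_smul, h5, h2, map_add,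
        h6, sub_smul, pow_succ', map_mul, Module.End.mul_apply]
      abel
    rw [h1]
    have hv' := (hmem k v).1 hv
    refine Submodule.add_mem _ ?_ (Submodule.smul_mem _ _ ?_)
    · have := hGx f a le_rfl _ _ (hG.hd _ i _ hv')
      exact hG.mono (by ring_nf; omega) this
    · have := hGx (pderiv i f) a (totalDegree_pderiv_le i f (by omega)) _ _ hv'
      exact hG.mono (by ring_nf; omega) this
  · intro v
    obtain ⟨m, hm⟩ := hG.exh v
    refine ⟨m, (hmem _ v).2 ?_⟩
    have := hGf m m v hm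
    refine hG.mono ?_ this
    nlinarith
  · intro k
    have := hG.fin ((a + 1) * k)
    let e : G' k →ₗ[ℂ] G ((a + 1) * k) :=
      (W.x (f ^ k)).restrict (p := G' k) (q := G ((a + 1) * k)) (fun v hv => hv)
    have h1 : Module.finrank ℂ (G' k) ≤ Module.finrank ℂ (G ((a + 1) * k)) :=
      LinearMap.finrank_le_finrank_of_injective (f := e)
        (fun v w hvw => Subtype.ext (hbij k (congrArg Subtype.val hvw)))
    have h3 := hG.bound ((a + 1) * k)
    have hc : 0 ≤ b := by
      have h7 := (Nat.cast_nonneg (α := ℝ) _).trans (hG.bound 0)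
      simpa using h7
    calc (Module.finrank ℂ (G' k) : ℝ) ≤ Module.finrank ℂ (G ((a + 1) * k)) := by
          exact_mod_cast h1
      _ ≤ b * (((a + 1) * k : ℕ) + 1) ^ Fintype.card σ := h3
      _ ≤ b * (((a : ℝ) + 1) * ((k : ℝ) + 1)) ^ Fintype.card σ := by
        refine mul_le_mul_of_nonneg_left (pow_le_pow_left₀ (by positivity) ?_ _) hc
        push_cast
        nlinarith [(Nat.cast_nonneg a : (0 : ℝ) ≤ a)]
      _ = _ := by rw [mul_pow]; ring

/-! ## The polynomials -/

/-- The polynomials as a module. -/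
def WMod.poly (σ : Type) [Fintype σ] [DecidableEq σ] : WMod σ (MvPolynomial σ ℂ) :=
  WMod.mk' (fun i => LinearMap.mulLeft ℂ (X i))
    (fun i => ((pderiv i : Derivation ℂ (MvPolynomial σ ℂ) (MvPolynomial σ ℂ)) :
      MvPolynomial σ ℂ →ₗ[ℂ] MvPolynomial σ ℂ))
    (fun i j => LinearMap.ext fun p => by
      rw [Module.End.mul_apply, Module.End.mul_apply, LinearMap.mulLeft_apply,
        LinearMap.mulLeft_apply, LinearMap.mulLeft_apply, LinearMap.mulLeft_apply]
      ring)
    (fun i j => LinearMap.ext fun p => pderiv_swap i j p)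
    (fun i j => LinearMap.ext fun p => by
      have h0 : (pderiv i) (X j * p) - X j * (pderiv i) p = (if i = j then (1 : MvPolynomial σ ℂ) else 0) * p := by
        rw [Derivation.leibniz, smul_eq_mul, smul_eq_mul, add_sub_cancel_left, pderiv_X, mul_comm]
        by_cases h : i = j
        · subst h
          simp
        · simp [h, Ne.symm h, Pi.single_apply]
      rw [LinearMap.sub_apply, Module.End.mul_apply, Module.End.mul_apply]
      refine Eq.trans h0 ?_
      split_ifs
      · rw [one_mul, Module.End.one_apply]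
      · rw [zero_mul, LinearMap.zero_apply])

theorem poly_x (g p : MvPolynomial σ ℂ) : (WMod.poly σ).x g p = g * p := by
  have h : (WMod.poly σ).x = Algebra.lmul ℂ (MvPolynomial σ ℂ) := by
    refine MvPolynomial.algHom_ext fun i => ?_
    rw [WMod.poly, mk'_x]
    rfl
  rw [h]
  rfl

theorem poly_d (i : σ) (p : MvPolynomial σ ℂ) : (WMod.poly σ).d (X i) p = pderiv i p := by
  rw [WMod.poly, mk'_d]
  rfl

theorem poly_simple : (WMod.poly σ).Simple := by
  refine ⟨fun u _ => ⟨fun _ => trivial, fun _ => trivial⟩, ?_, ?_⟩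
  · intro h1
    have h2 : (1 : MvPolynomial σ ℂ) ∈ (⊤ : Submodule ℂ (MvPolynomial σ ℂ)) := trivial
    rw [h1, Submodule.mem_bot] at h2
    exact one_ne_zero h2
  · intro N hN _
    by_cases h0 : N = ⊥
    · exact Or.inl h0
    right
    have key : ∀ n : ℕ, ∀ p ∈ N, p ≠ 0 → p.totalDegree ≤ n → (1 : MvPolynomial σ ℂ) ∈ N := by
      intro n
      induction n with
      | zero =>
        intro p hp hp0 hd
        have h1 := totalDegree_eq_zero_iff_eq_C.1 (Nat.le_zero.1 hd)
        have h2 : coeff 0 p ≠ 0 := by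
          intro h
          rw [h, map_zero] at h1
          exact hp0 h1
        have h3 := N.smul_mem (coeff 0 p)⁻¹ hp
        rw [h1, smul_eq_C_mul, coeff_C, if_pos rfl, ← map_mul, inv_mul_cancel₀ h2, map_one] at h3
        exact h3
      | succ n ih =>
        intro p hp hp0 hd
        by_cases hd0 : p.totalDegree = 0
        · exact ih p hp hp0 (by omega)
        obtain ⟨i, hi⟩ := exists_pderiv_ne p hd0
        have h1 := (hN p hp).2 i
        rw [poly_d] at h1
        exact ih _ h1 hi (totalDegree_pderiv_le i p hd)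
    obtain ⟨p, hp, hp0⟩ := Submodule.exists_mem_ne_zero_of_ne_bot h0
    have h1 := key _ p hp hp0 le_rfl
    rw [eq_top_iff]
    intro q _
    have h2 := hN.xmem q _ h1
    rwa [poly_x, mul_one] at h2

theorem finrank_rtd_le {τ : Type} [Fintype τ] [DecidableEq τ] (k : ℕ) :
    Module.finrank ℂ (restrictTotalDegree τ ℂ k) ≤ (k + 1) ^ Fintype.card τ := by
  let e : restrictTotalDegree τ ℂ k →ₗ[ℂ] ((τ → Fin (k + 1)) → ℂ) :=
    { toFun := fun p g => coeff (Finsupp.equivFunOnFinite.symm fun t => (g t : ℕ)) (p : MvPolynomial τ ℂ)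
      map_add' := fun p q => by funext g; simp
      map_smul' := fun c p => by funext g; simp }
  have he : Function.Injective e := by
    rw [← LinearMap.ker_eq_bot, LinearMap.ker_eq_bot']
    intro p hp
    refine Subtype.ext (MvPolynomial.ext _ _ fun m => ?_)
    by_contra hm
    have hd : (p : MvPolynomial τ ℂ).totalDegree ≤ k := (mem_restrictTotalDegree _ _ _).1 p.2
    have h1 : m.sum (fun _ e => e) ≤ k :=
      (le_totalDegree (mem_support_iff.2 (by simpa using hm))).trans hd
    have h2 : ∀ t, m t ≤ k := fun t => by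
      refine le_trans ?_ h1
      rw [Finsupp.sum_fintype _ _ (fun _ => rfl)]
      exact Finset.single_le_sum (f := fun t => m t) (fun _ _ => Nat.zero_le _) (Finset.mem_univ t)
    have h3 := congrFun hp fun t => (⟨m t, by have := h2 t; omega⟩ : Fin (k + 1))
    apply hm
    have h4 : (Finsupp.equivFunOnFinite.symm fun t => m t) = m := by
      ext t; rfl
    change coeff (Finsupp.equivFunOnFinite.symm fun t => m t) (p : MvPolynomial τ ℂ) = 0 at h3
    rw [h4] at h3
    rw [h3]
    simp
  have h1 := LinearMap.finrank_le_finrank_of_injective he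
  rwa [Module.finrank_fintype_fun_eq_card, Fintype.card_fun, Fintype.card_fin] at h1

theorem poly_growth : (WMod.poly σ).Growth := by
  refine ⟨fun k => restrictTotalDegree σ ℂ k, 1, ⟨?_, ?_, ?_, ?_, ?_, ?_⟩⟩
  · intro a b hab p hp
    rw [mem_restrictTotalDegree] at hp ⊢
    exact hp.trans hab
  · intro k
    infer_instance
  · intro k i p hp
    rw [mem_restrictTotalDegree] at hp ⊢
    rw [poly_x]
    exact totalDegree_X_mul_le i p hp
  · intro k i p hp
    rw [mem_restrictTotalDegree] at hp ⊢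
    rw [poly_d]
    exact totalDegree_pderiv_le i p (by omega)
  · intro p
    exact ⟨p.totalDegree, (mem_restrictTotalDegree _ _ _).2 le_rfl⟩
  · intro k
    rw [one_mul]
    exact_mod_cast finrank_rtd_le (τ := σ) k

/-! ## `ℂ[x, 1/f] f^c` -/

/-- `ℂ[x, 1/f]`. -/
abbrev PW (f : MvPolynomial σ ℂ) : Type := (WMod.poly σ).Loc (Submonoid.powers f)

/-- The module `ℂ[x, 1/f]`. -/
def WMod.pl (f : MvPolynomial σ ℂ) : WMod σ (PW f) := (WMod.poly σ).loc (Submonoid.powers f)

theorem pl_isLoc (f : MvPolynomial σ ℂ) :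
    IsLoc (WMod.poly σ) f (WMod.pl f) ((WMod.poly σ).ι (Submonoid.powers f)) :=
  (WMod.poly σ).isLoc f

/-- The module `ℂ[x, 1/f] f^c`. -/
def WMod.pw (f : MvPolynomial σ ℂ) (c : ℂ) : WMod σ (PW f) := (WMod.pl f).tw f (pl_isLoc f).bij c

theorem poly_inj {f : MvPolynomial σ ℂ} (hf : f ≠ 0) : Function.Injective ((WMod.poly σ).x f) := by
  intro p q h
  rw [poly_x, poly_x] at h
  exact mul_left_cancel₀ hf h

theorem pl_lsimple {f : MvPolynomial σ ℂ} (hf : f ≠ 0) : (WMod.pl f).LSimple f :=
  (pl_isLoc f).lsimple poly_simple (poly_inj hf)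

/-- `ℂ[x, 1/f] f^c` has no proper subspace stable under the operators and `1 / f`. -/
theorem pw_lsimple {f : MvPolynomial σ ℂ} (hf : f ≠ 0) (c : ℂ) : (WMod.pw f c).LSimple f :=
  (pl_lsimple hf).tw c

theorem pw_growth (f : MvPolynomial σ ℂ) (c : ℂ) : (WMod.pw f c).Growth :=
  ((pl_isLoc f).growth poly_growth).tw _ c

/-- The vector `h f^(c - k)`. -/
def pmk (f h : MvPolynomial σ ℂ) (k : ℕ) : PW f :=
  ((xinv (pl_isLoc f).bij) ^ k) ((WMod.poly σ).ι (Submonoid.powers f) h)

theorem pmk_zero_exp (f h : MvPolynomial σ ℂ) :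
    pmk f h 0 = (WMod.poly σ).ι (Submonoid.powers f) h := rfl

theorem pmk_add (f h h' : MvPolynomial σ ℂ) (k : ℕ) :
    pmk f (h + h') k = pmk f h k + pmk f h' k := by
  rw [pmk, map_add, map_add]
  rfl

theorem pmk_smul (f h : MvPolynomial σ ℂ) (a : ℂ) (k : ℕ) :
    pmk f (a • h) k = a • pmk f h k := by
  rw [pmk, map_smul, map_smul]
  rfl

theorem pmk_zero (f : MvPolynomial σ ℂ) (k : ℕ) : pmk f 0 k = 0 := by
  rw [pmk, map_zero, map_zero]

theorem xinv_pow_x {W : WMod σ L} {f : MvPolynomial σ ℂ} (hf : Function.Bijective (W.x f))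
    (k : ℕ) (g : MvPolynomial σ ℂ) : xinv hf ^ k * W.x g = W.x g * xinv hf ^ k := by
  induction k with
  | zero => simp
  | succ k ih => rw [pow_succ, mul_assoc, xinv_comm, ← mul_assoc, ih, mul_assoc]

theorem xinv_pow_d {W : WMod σ L} {f : MvPolynomial σ ℂ} (hf : Function.Bijective (W.x f))
    (k : ℕ) (i : σ) : W.d (X i) * xinv hf ^ k =
      xinv hf ^ k * W.d (X i) - (k : ℂ) • (W.x (pderiv i f) * xinv hf ^ (k + 1)) := by
  induction k with
  | zero => simp
  | succ k ih =>
    rw [pow_succ (xinv hf) k, ← mul_assoc, ih, sub_mul, mul_assoc, d_xinv, mul_sub,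
      ← mul_assoc (xinv hf ^ k) (W.x (pderiv i f)), xinv_pow_x]
    have e1 : W.x (pderiv i f) * xinv hf ^ k * (xinv hf * xinv hf) =
        W.x (pderiv i f) * xinv hf ^ (k + 1 + 1) := by
      rw [pow_succ, pow_succ]; noncomm_ring
    have e2 : (k : ℂ) • (W.x (pderiv i f) * xinv hf ^ (k + 1)) * xinv hf =
        (k : ℂ) • (W.x (pderiv i f) * xinv hf ^ (k + 1 + 1)) := by
      rw [smul_mul_assoc, mul_assoc, ← pow_succ]
    rw [e1, e2, ← mul_assoc (xinv hf ^ k)]
    push_cast
    rw [add_smul, one_smul]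
    abel

/-- Multiplication by a function. -/
theorem pw_x (f : MvPolynomial σ ℂ) (c : ℂ) (g h : MvPolynomial σ ℂ) (k : ℕ) :
    (WMod.pw f c).x g (pmk f h k) = pmk f (g * h) k := by
  change (WMod.pl f).x g (pmk f h k) = _
  have h1 := LinearMap.congr_fun (xinv_pow_x (pl_isLoc f).bij k g)
    ((WMod.poly σ).ι (Submonoid.powers f) h)
  rw [Module.End.mul_apply, Module.End.mul_apply, ← (pl_isLoc f).hx, poly_x] at h1
  exact h1.symm

/-- Cancellation. -/
theorem pmk_cancel (f h : MvPolynomial σ ℂ) (k : ℕ) : pmk f (f * h) (k + 1) = pmk f h k := by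
  rw [pmk, ← poly_x, (pl_isLoc f).hx, pow_succ, Module.End.mul_apply, xinv_x]
  rfl

/-- The derivations. -/
theorem pw_d (f : MvPolynomial σ ℂ) (c : ℂ) (i : σ) (h : MvPolynomial σ ℂ) (k : ℕ) :
    (WMod.pw f c).d (X i) (pmk f h k) =
      pmk f (f * pderiv i h + C (c - k) * (pderiv i f * h)) (k + 1) := by
  have hb := (pl_isLoc f).bij
  rw [WMod.pw, WMod.tw_d, LinearMap.add_apply, LinearMap.smul_apply, pmk_add, pmk_cancel]
  have h1 := LinearMap.congr_fun (xinv_pow_d hb k i) ((WMod.poly σ).ι (Submonoid.powers f) h)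
  rw [Module.End.mul_apply, LinearMap.sub_apply, LinearMap.smul_apply, Module.End.mul_apply,
    Module.End.mul_apply, ← (pl_isLoc f).hd, poly_d] at h1
  have h2 : (WMod.pl f).x (pderiv i f) ((xinv hb ^ (k + 1))
      ((WMod.poly σ).ι (Submonoid.powers f) h)) = pmk f (pderiv i f * h) (k + 1) :=
    pw_x f c (pderiv i f) h (k + 1)
  rw [h2] at h1
  have h3 : ((WMod.pl f).x (pderiv i f) * xinv hb) (pmk f h k) =
      pmk f (pderiv i f * h) (k + 1) := by
    rw [← h2, Module.End.mul_apply, pow_succ', Module.End.mul_apply]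
    rfl
  rw [h3]
  have h4 : pmk f (C (c - k) * (pderiv i f * h)) (k + 1) =
      (c - k) • pmk f (pderiv i f * h) (k + 1) := by
    rw [← pmk_smul, smul_eq_C_mul]
  rw [h4, sub_smul]
  have h5 : (WMod.pl f).d (X i) (pmk f h k) = pmk f (pderiv i h) k -
      (k : ℂ) • pmk f (pderiv i f * h) (k + 1) := h1
  rw [h5]
  abel

theorem pmk_surj (f : MvPolynomial σ ℂ) (v : PW f) : ∃ (h : MvPolynomial σ ℂ) (k : ℕ),
    v = pmk f h k := by
  obtain ⟨k, h, hk⟩ := (pl_isLoc f).frac v
  refine ⟨h, k, ?_⟩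
  have hb := (pl_isLoc f).bij
  have h1 : xinv hb ^ k * (WMod.pl f).x (f ^ k) = 1 := by
    clear hk
    induction k with
    | zero => simp
    | succ k ih =>
      rw [pow_succ', pow_succ, map_mul]
      calc xinv hb * xinv hb ^ k * ((WMod.pl f).x (f ^ k) * (WMod.pl f).x f) =
          xinv hb * (xinv hb ^ k * (WMod.pl f).x (f ^ k)) * (WMod.pl f).x f := by noncomm_ring
        _ = 1 := by rw [ih, mul_one, xinv_mul]
  rw [pmk, ← hk]
  have h2 := LinearMap.congr_fun h1 v
  rw [Module.End.mul_apply, Module.End.one_apply] at h2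
  exact h2.symm

theorem pmk_eq_zero {f : MvPolynomial σ ℂ} (hf : f ≠ 0) (h : MvPolynomial σ ℂ) (k : ℕ) :
    pmk f h k = 0 ↔ h = 0 := by
  constructor
  · intro h0
    induction k generalizing h with
    | zero =>
      refine (pl_isLoc f).inj (poly_inj hf) ?_
      rw [map_zero]
      exact h0
    | succ k ih =>
      have h1 : pmk f (f * h) (k + 1) = 0 := by
        rw [← pw_x f 0, h0, map_zero]
      rw [pmk_cancel] at h1
      exact ih h h1
  · rintro rfl
    exact pmk_zero f k

/-- The points of the zero section over `f ≠ 0` are in the characteristic variety. -/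
theorem pw_inCh {f : MvPolynomial σ ℂ} (c : ℂ) {p : σ → ℂ} (hp : eval p f ≠ 0) :
    (WMod.pw f c).InCh p 0 := by
  have hf : f ≠ 0 := by
    rintro rfl
    exact hp (map_zero _)
  have h1 : pmk f 1 0 ≠ 0 := fun h => one_ne_zero ((pmk_eq_zero hf 1 0).1 h)
  refine (pw_lsimple hf c).inCh_of_one hp h1 ?_
  intro k P hP hP0
  rcases k with _ | k
  · have h2 : ∃ g : MvPolynomial σ ℂ, P = rename Sum.inl g := by
      refine Fil_ind (fun P => ∃ g : MvPolynomial σ ℂ, P = rename Sum.inl g) ⟨0, by simp⟩ ?_ ?_ hP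
      · rintro _ _ ⟨a, rfl⟩ ⟨b, rfl⟩
        exact ⟨a + b, (map_add _ _ _).symm⟩
      · intro m a hm
        refine ⟨monomial (Finsupp.sumFinsuppEquivProdFinsupp m).1 a, ?_⟩
        have h3 := sum_split (Finsupp.sumFinsuppEquivProdFinsupp m).1
          (Finsupp.sumFinsuppEquivProdFinsupp m).2
        rw [Prod.mk.eta, Equiv.symm_apply_apply] at h3
        have h4 : (Finsupp.sumFinsuppEquivProdFinsupp m).2 = 0 := by
          ext i
          have h5 : xd m = 0 := by omega
          have h6 := (Finset.sum_eq_zero_iff_of_nonneg (fun i _ => Nat.zero_le _)).1 h5 i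
            (Finset.mem_univ i)
          simpa using h6
        rw [h4, Finsupp.mapDomain_zero, add_zero] at h3
        rw [rename_monomial, h3]
    obtain ⟨g, rfl⟩ := h2
    rw [symAt_inl]
    rw [WMod.nf_x, pw_x, mul_one, pmk_eq_zero hf] at hP0
    rw [hP0, map_zero]
  · have h2 : ∀ Q : MvPolynomial (σ ⊕ σ) ℂ, ∃ a : ℂ, evt p 0 Q = Polynomial.C a := by
      intro Q
      induction Q using MvPolynomial.induction_on with
      | C a => exact ⟨a, by rw [← MvPolynomial.algebraMap_eq, AlgHom.commutes]; rfl⟩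
      | add P Q hP hQ =>
        obtain ⟨a, ha⟩ := hP
        obtain ⟨b, hb⟩ := hQ
        exact ⟨a + b, by rw [map_add, ha, hb, map_add]⟩
      | mul_X P i hP =>
        obtain ⟨a, ha⟩ := hP
        rcases i with i | i
        · exact ⟨a * p i, by rw [map_mul, ha, evt, aeval_X, Sum.elim_inl, map_mul]⟩
        · exact ⟨0, by rw [map_mul, ha, evt, aeval_X, Sum.elim_inr]; simp⟩
    obtain ⟨a, ha⟩ := h2 P
    rw [symAt_apply, ha, Polynomial.coeff_C_succ]

end Pool.DM
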