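import Pool.Agent.Work.MP_c20ce7_dm70.S7
import Pool.Agent.Work.MP_c20ce7_dm.Main

set_option autoImplicit false
set_option linter.unusedSectionVars false
set_option linter.unusedSimpArgs false

/-!
# Coordinates from a polynomial inverse

`Coord.of_inv`: if `q X_j` is a polynomial `g_j` in the functions `Y_k` for all `j`, `q = q'(Y) ≠ 0`, and there are as
many `Y_k` as variables, then `Y` is a coordinate system where `q ≠ 0`. `InCh.coord'`: the characteristic variety in
the new coordinates, in the pull-back form. Supports: `NilOn` for localisations, coordinate changes, restrictions.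
-/

open MvPolynomial

noncomputable section

namespace Pool.DM

variable {τ : Type} [Fintype τ] [DecidableEq τ] {L : Type} [AddCommGroup L] [Module ℂ L]
variable {κ : Type} [Fintype κ] [DecidableEq κ]

/-- The chain rule. -/
theorem pderiv_bind (Y : κ → MvPolynomial τ ℂ) (j : τ) (g : MvPolynomial κ ℂ) :
    pderiv j (bind₁ Y g) = ∑ k, bind₁ Y (pderiv k g) * pderiv j (Y k) := by
  induction g using MvPolynomial.induction_on with
  | C a => simp
  | add p q hp hq => simp only [map_add, add_mul, Finset.sum_add_distrib, hp, hq]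
  | mul_X p l hp =>
    rw [map_mul, Derivation.leibniz, hp, bind₁_X_right]
    simp only [Derivation.leibniz, pderiv_X, smul_eq_mul, map_add, map_mul, bind₁_X_right, add_mul,
      Finset.sum_add_distrib]
    rw [Finset.mul_sum]
    congr 1
    · rw [Finset.sum_eq_single l]
      · simp
      · intro k _ hk
        simp [Pi.single_apply, Ne.symm hk]
      · intro h; exact absurd (Finset.mem_univ l) h
    · exact Finset.sum_congr rfl fun k _ => by ring

/-- A left inverse up to `q` of a square matrix is a right inverse. -/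
theorem left_of_right {R : Type} [CommRing R] [IsDomain R] (e : κ ≃ τ) (q : R) (hq : q ≠ 0)
    (J : τ → κ → R) (A : κ → τ → R) (h : ∀ i j, ∑ k, J j k * A k i = if i = j then q else 0) :
    ∀ k l, ∑ j, A k j * J j l = if k = l then q else 0 := by
  let M : Matrix τ τ R := fun j i => J j (e.symm i)
  let N : Matrix τ τ R := fun j i => A (e.symm j) i
  have h1 : M * N = q • (1 : Matrix τ τ R) := by
    ext i j
    rw [Matrix.mul_apply, Matrix.smul_apply, Matrix.one_apply, smul_eq_mul]
    have h2 := h j i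
    have h3 : ∑ k, J i k * A k j = ∑ t, M i t * N t j :=
      (Equiv.sum_comp e.symm (fun k => J i k * A k j)).symm
    rw [← h3, h2]
    by_cases hij : i = j
    · subst hij; simp
    · simp [hij, Ne.symm hij]
  have hdet : M.det * N.det = q ^ Fintype.card τ := by
    rw [← Matrix.det_mul, h1, Matrix.det_smul, Matrix.det_one, mul_one]
  have hM : M.det ≠ 0 := by
    intro h0
    rw [h0, zero_mul] at hdet
    exact pow_ne_zero _ hq hdet.symm
  have h2 : N * M = q • (1 : Matrix τ τ R) := by
    have h3 : M * (N * M - q • (1 : Matrix τ τ R)) = 0 := by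
      rw [mul_sub, ← mul_assoc, h1, smul_mul_assoc, one_mul, Matrix.mul_smul, mul_one, sub_self]
    have h4 : M.adjugate * (M * (N * M - q • (1 : Matrix τ τ R))) = 0 := by rw [h3, mul_zero]
    rw [← mul_assoc, Matrix.adjugate_mul, smul_mul_assoc, one_mul] at h4
    rw [← sub_eq_zero]
    ext i j
    have h5 := congrFun (congrFun h4 i) j
    rw [Matrix.smul_apply, smul_eq_mul] at h5
    exact (mul_eq_zero.1 h5).resolve_left hM
  intro k l
  have h6 := congrFun (congrFun h2 (e k)) (e l)
  rw [Matrix.mul_apply, Matrix.smul_apply, Matrix.one_apply, smul_eq_mul] at h6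
  simp only [N, M, Equiv.symm_apply_apply] at h6
  rw [h6]
  by_cases hkl : k = l
  · subst hkl; simp
  · have : e k ≠ e l := fun h => hkl (e.injective h)
    simp [hkl, this]

/-- Coordinates from a polynomial inverse. -/
theorem Coord.of_inv (Y : κ → MvPolynomial τ ℂ) (q' : MvPolynomial κ ℂ)
    (g : τ → MvPolynomial κ ℂ) (hg : ∀ j, bind₁ Y q' * X j = bind₁ Y (g j))
    (hq : bind₁ Y q' ≠ 0) (e : κ ≃ τ) :
    Coord (bind₁ Y q') Y
      (fun k i => bind₁ Y (pderiv k (g i)) - X i * bind₁ Y (pderiv k q')) := by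
  have hr : ∀ i j, ∑ k, pderiv j (Y k) * (bind₁ Y (pderiv k (g i)) -
      X i * bind₁ Y (pderiv k q')) = if i = j then bind₁ Y q' else 0 := by
    intro i j
    have h1 := congrArg (pderiv j) (hg i)
    rw [Derivation.leibniz, pderiv_bind, pderiv_bind, smul_eq_mul, smul_eq_mul, pderiv_X] at h1
    have h2 : ∑ k, pderiv j (Y k) * (bind₁ Y (pderiv k (g i)) - X i * bind₁ Y (pderiv k q')) =
        ∑ k, bind₁ Y (pderiv k (g i)) * pderiv j (Y k) -
          X i * ∑ k, bind₁ Y (pderiv k q') * pderiv j (Y k) := by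
      rw [Finset.mul_sum, ← Finset.sum_sub_distrib]
      exact Finset.sum_congr rfl fun k _ => by ring
    rw [h2, ← h1, add_sub_cancel_right]
    by_cases hij : i = j
    · subst hij; simp
    · simp [hij, Pi.single_apply, Ne.symm hij]
  exact ⟨left_of_right e _ hq _ _ hr, hr⟩

variable {W : WMod τ L} {q : MvPolynomial τ ℂ} {Y : κ → MvPolynomial τ ℂ}
  {A : κ → τ → MvPolynomial τ ℂ}

/-- The characteristic variety in the new coordinates: pull-back of covectors. -/
theorem WMod.InCh.coord' {p ξ : τ → ℂ} (hCh : W.InCh p ξ) (hq : Function.Bijective (W.x q))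
    (h : Coord q Y A) (hp : eval p q ≠ 0) (x η : κ → ℂ) (hx : ∀ k, x k = eval p (Y k))
    (hξ : ∀ j, ξ j = ∑ k, eval p (pderiv j (Y k)) * η k) : (W.coord hq h).InCh x η := by
  have h1 := hCh.coord hq h hp
  have h2 : (fun k => (eval p q)⁻¹ * ∑ j, eval p (A k j) * ξ j) = η := by
    funext k
    have h3 : ∑ j, eval p (A k j) * ξ j = eval p q * η k := by
      simp only [hξ, Finset.mul_sum]
      rw [Finset.sum_comm]
      have h4 : ∀ l, ∑ j, eval p (A k j) * (eval p (pderiv j (Y l)) * η l) =
          (if k = l then eval p q else 0) * η l := by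
        intro l
        have h5 := congrArg (eval p) (h.left k l)
        rw [map_sum] at h5
        simp only [map_mul] at h5
        simp only [← mul_assoc]
        rw [← Finset.sum_mul, h5]
        split_ifs <;> simp
      simp only [h4, ite_mul, zero_mul]
      rw [Finset.sum_ite_eq Finset.univ k, if_pos (Finset.mem_univ k)]
    rw [h3, ← mul_assoc, inv_mul_cancel₀ hp, one_mul]
  rw [h2] at h1
  have h6 : x = fun k => eval p (Y k) := funext hx
  rw [h6]
  exact h1

/-! ## Supports -/

theorem LocNil.mul_left_of_comm {f g : Module.End ℂ L} (h : f * g = g * f) (hg : LocNil g) :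
    LocNil (f * g) := by
  intro u
  obtain ⟨k, hk⟩ := hg u
  refine ⟨k, ?_⟩
  have h1 : (f * g) ^ k = f ^ k * g ^ k := (Commute.mul_pow h k)
  rw [h1, Module.End.mul_apply, hk, map_zero]

theorem LocNil.of_mul_inj {f g : Module.End ℂ L} (h : f * g = g * f) (hf : Function.Injective f)
    (hg : LocNil (f * g)) : LocNil g := by
  intro u
  obtain ⟨k, hk⟩ := hg u
  refine ⟨k, ?_⟩
  have h1 : (f * g) ^ k = f ^ k * g ^ k := (Commute.mul_pow h k)
  rw [h1, Module.End.mul_apply] at hk
  have h2 : Function.Injective (f ^ k) := by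
    rw [Module.End.coe_pow]
    exact hf.iterate k
  exact h2 (by rw [hk, map_zero])

theorem LocNil.add {f g : Module.End ℂ L} (h : f * g = g * f) (hf : LocNil f) (hg : LocNil g) :
    LocNil (f + g) := by
  intro u
  obtain ⟨a, ha⟩ := hf u
  obtain ⟨b, hb⟩ := hg u
  refine ⟨a + b, ?_⟩
  have h1 : Commute f g := h
  rw [h1.add_pow, LinearMap.sum_apply]
  refine Finset.sum_eq_zero fun m hm => ?_
  rw [Finset.mem_range] at hm
  have h3 : ((f ^ m * g ^ (a + b - m)) * ((a + b).choose m : Module.End ℂ L)) u =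
      ((a + b).choose m : ℂ) • (f ^ m * g ^ (a + b - m)) u := by
    have h4 : (((a + b).choose m : Module.End ℂ L)) u = ((a + b).choose m : ℂ) • u := by
      rw [← nsmul_one, LinearMap.smul_apply, Module.End.one_apply, Nat.cast_smul_eq_nsmul]
    rw [Module.End.mul_apply, h4, map_smul]
  rw [h3]
  by_cases hma : a ≤ m
  · have h4 : f ^ m * g ^ (a + b - m) = g ^ (a + b - m) * f ^ (m - a) * f ^ a := by
      rw [(h1.pow_pow m (a + b - m)).eq, mul_assoc, ← pow_add, Nat.sub_add_cancel hma]
    rw [h4, Module.End.mul_apply, ha, map_zero, smul_zero]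
  · have h4 : g ^ (a + b - m) = g ^ (a - m) * g ^ b := by
      rw [← pow_add]; congr 1; omega
    rw [h4, ← mul_assoc, Module.End.mul_apply, hb, map_zero, smul_zero]

theorem LocNil.zero : LocNil (0 : Module.End ℂ L) := fun u => ⟨1, by simp⟩

/-- Support of a localisation. -/
theorem IsLoc.nilOn {M : Type} [AddCommGroup M] [Module ℂ M] {W : WMod τ L} {f : MvPolynomial τ ℂ}
    {W' : WMod τ M} {ι : L →ₗ[ℂ] M} (h : IsLoc W f W' ι) {Z : Set (τ → ℂ)} (hZ : W.NilOn Z) :
    W'.NilOn {x | x ∈ Z ∧ eval x f ≠ 0} := by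
  intro g hg
  have h1 : LocNil (W.x (f * g)) := by
    refine hZ _ fun x hx => ?_
    rw [map_mul]
    by_cases h0 : eval x f = 0
    · rw [h0, zero_mul]
    · rw [hg x ⟨hx, h0⟩, mul_zero]
  have h2 : LocNil (W'.x f * W'.x g) := by
    rw [← map_mul]
    intro v
    obtain ⟨k, u, hu⟩ := h.frac v
    obtain ⟨m, hm⟩ := h1 u
    refine ⟨m, ?_⟩
    rw [← map_pow] at hm ⊢
    have h3 : W'.x (f ^ k) (W'.x ((f * g) ^ m) v) = 0 := by
      rw [← Module.End.mul_apply, ← map_mul, mul_comm, map_mul, Module.End.mul_apply, hu, ← h.hx,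
        hm, map_zero]
    exact W'.x_pow_inj h.bij.1 k (by rw [h3, map_zero])
  refine LocNil.of_mul_inj ?_ h.bij.1 h2
  rw [← map_mul, ← map_mul, mul_comm]

/-- Support of the submodule of which `W'` is a localisation. -/
theorem IsLoc.nilOn' {M : Type} [AddCommGroup M] [Module ℂ M] {W : WMod τ L} {f : MvPolynomial τ ℂ}
    {W' : WMod τ M} {ι : L →ₗ[ℂ] M} (h : IsLoc W f W' ι) (hf : Function.Injective (W.x f))
    {Z : Set (τ → ℂ)} (hZ : W'.NilOn Z) : W.NilOn Z := by
  intro g hg u
  obtain ⟨m, hm⟩ := hZ g hg (ι u)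
  refine ⟨m, h.inj hf ?_⟩
  rw [map_zero, ← map_pow, h.hx, map_pow]
  exact hm

/-- Support after a change of coordinates. -/
theorem WMod.NilOn.coord {Z : Set (τ → ℂ)} (hZ : W.NilOn Z) (hq : Function.Bijective (W.x q))
    (h : Coord q Y A) : (W.coord hq h).NilOn {x | ∃ p ∈ Z, ∀ k, x k = eval p (Y k)} := by
  intro g hg
  rw [W.coord_x]
  refine hZ _ fun p hp => ?_
  have h1 := hg (fun k => eval p (Y k)) ⟨p, hp, fun k => rfl⟩
  have h2 : eval p (bind₁ Y g) = eval (fun k => eval p (Y k)) g := by
    rw [← MvPolynomial.coe_aeval_eq_eval, ← MvPolynomial.coe_aeval_eq_eval]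
    change aeval p (bind₁ Y g) = _
    rw [aeval_bind₁]
    rfl
  rw [h2, h1]

/-- Support of a submodule. -/
theorem WMod.NilOn.res {Z : Set (τ → ℂ)} (hZ : W.NilOn Z) (N : Submodule ℂ L) (hN : W.Stable N) :
    (W.res N hN).NilOn Z := by
  intro g hg u
  obtain ⟨m, hm⟩ := hZ g hg u
  refine ⟨m, Subtype.ext ?_⟩
  rw [← map_pow, WMod.res_x, map_pow, hm]
  rfl

end Pool.DM
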